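import Pool.Agent.V11331.LA.Bal

/-!
# Existence of a stationary distribution
-/

namespace Pool.Agent.V11331.LA

open Filter Topology Finset

variable {ρ q : ℝ}

lemma step_add (h₁ h₂ : ℕ × ℕ → ℝ) : step ρ q (h₁ + h₂) = step ρ q h₁ + step ρ q h₂ := by
  funext s
  simp only [step, Pi.add_apply]
  rw [← Finset.sum_add_distrib]
  apply Finset.sum_congr rfl
  intro e _
  rw [← mul_add, ← Finset.sum_add_distrib]
  congr 1
  apply Finset.sum_congr rfl
  intro m _
  ring

lemma step_smul (a : ℝ) (h : ℕ × ℕ → ℝ) : step ρ q (a • h) = a • step ρ q h := by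
  funext s
  simp only [step, Pi.smul_apply, smul_eq_mul]
  rw [Finset.mul_sum]
  apply Finset.sum_congr rfl
  intro e _
  rw [mul_left_comm a]
  congr 1
  rw [Finset.mul_sum]
  apply Finset.sum_congr rfl
  intro m _
  ring

lemma step_nonneg (hρ0 : 0 ≤ ρ) (hρ : ρ ≤ 1) (hq0 : 0 ≤ q) (hq : q ≤ 1) {h : ℕ × ℕ → ℝ}
    (hh : ∀ s, 0 ≤ h s) (s : ℕ × ℕ) : 0 ≤ step ρ q h s := by
  unfold step
  apply Finset.sum_nonneg
  intro e _
  apply mul_nonneg
  · split_ifs <;> linarith
  · apply Finset.sum_nonneg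
    intro m _
    apply mul_nonneg _ (hh _)
    have : 0 ≤ (1 - q) ^ m := pow_nonneg (by linarith) _
    positivity

/-- `E_{(0,0)}[h(X_t)]` -/
noncomputable def EE (ρ q : ℝ) (t : ℕ) (h : ℕ × ℕ → ℝ) : ℝ := ((step ρ q)^[t] h) (0, 0)

lemma EE_succ (t : ℕ) (h : ℕ × ℕ → ℝ) : EE ρ q (t + 1) h = EE ρ q t (step ρ q h) := rfl

lemma EE_add (t : ℕ) (h₁ h₂ : ℕ × ℕ → ℝ) :
    EE ρ q t (h₁ + h₂) = EE ρ q t h₁ + EE ρ q t h₂ := by
  induction t generalizing h₁ h₂ with
  | zero => rfl
  | succ t ih => rw [EE_succ, EE_succ, EE_succ, step_add, ih]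

lemma EE_smul (t : ℕ) (a : ℝ) (h : ℕ × ℕ → ℝ) : EE ρ q t (a • h) = a * EE ρ q t h := by
  induction t generalizing h with
  | zero => rfl
  | succ t ih => rw [EE_succ, EE_succ, step_smul, ih]

lemma EE_sum {ι : Type*} (t : ℕ) (F : Finset ι) (h : ι → ℕ × ℕ → ℝ) :
    EE ρ q t (∑ i ∈ F, h i) = ∑ i ∈ F, EE ρ q t (h i) := by
  classical
  induction F using Finset.induction_on with
  | empty =>
    have : (0 : ℕ × ℕ → ℝ) = (0 : ℝ) • (0 : ℕ × ℕ → ℝ) := by simp
    rw [Finset.sum_empty, Finset.sum_empty, this, EE_smul, zero_mul]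
  | insert i F hi ih => rw [Finset.sum_insert hi, Finset.sum_insert hi, EE_add, ih]

lemma EE_nonneg (hρ0 : 0 ≤ ρ) (hρ : ρ ≤ 1) (hq0 : 0 ≤ q) (hq : q ≤ 1) (t : ℕ) {h : ℕ × ℕ → ℝ}
    (hh : ∀ s, 0 ≤ h s) : 0 ≤ EE ρ q t h := by
  induction t generalizing h with
  | zero => exact hh _
  | succ t ih => rw [EE_succ]; exact ih (step_nonneg hρ0 hρ hq0 hq hh)

lemma EE_mono (hρ0 : 0 ≤ ρ) (hρ : ρ ≤ 1) (hq0 : 0 ≤ q) (hq : q ≤ 1) (t : ℕ) {h₁ h₂ : ℕ × ℕ → ℝ}
    (hh : ∀ s, h₁ s ≤ h₂ s) : EE ρ q t h₁ ≤ EE ρ q t h₂ := by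
  have h1 : h₂ = h₁ + (h₂ + (-1 : ℝ) • h₁) := by
    funext s; simp
  have h2 := EE_nonneg (ρ := ρ) (q := q) hρ0 hρ hq0 hq t (h := h₂ + (-1 : ℝ) • h₁) (by
    intro s
    have := hh s
    simp only [Pi.add_apply, Pi.smul_apply, smul_eq_mul]
    linarith)
  rw [h1, EE_add]
  linarith

lemma step_one : step ρ q (fun _ => 1) = fun _ => 1 := by
  funext s
  have := step_total ρ q (fun _ => 1) s.1 s.2
  rw [this]
  ring

lemma EE_one (t : ℕ) : EE ρ q t (fun _ => 1) = 1 := by
  induction t with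
  | zero => rfl
  | succ t ih => rw [EE_succ, step_one, ih]

/-- the indicator of `n > 0` -/
noncomputable def busy (s : ℕ × ℕ) : ℝ := if 0 < s.1 then 1 else 0

lemma step_N : step ρ q (fun s => ((s.1 + s.2 : ℕ) : ℝ)) =
    (fun s => ((s.1 + s.2 : ℕ) : ℝ)) + (ρ • (fun _ => (1 : ℝ)) + (-1 : ℝ) • busy) := by
  funext s
  obtain ⟨n, l⟩ := s
  have := step_total ρ q (fun N => (N : ℝ)) n l
  rw [this]
  simp only [Pi.add_apply, Pi.smul_apply, smul_eq_mul, busy]
  rcases Nat.eq_zero_or_pos n with hn | hn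
  · subst hn
    simp only [lt_irrefl, if_false, Nat.sub_zero]
    push_cast
    ring
  · simp only [hn, if_true]
    obtain ⟨n', rfl⟩ : ∃ n', n = n' + 1 := ⟨n - 1, by omega⟩
    have e1 : n' + 1 + l - 1 = n' + l := by omega
    have e2 : n' + 1 + l + 1 - 1 = n' + l + 1 := by omega
    rw [e1, e2]
    push_cast
    ring

lemma binom_mean (q : ℝ) (L : ℕ) :
    ∑ m ∈ range (L + 1), (L.choose m : ℝ) * (1 - q) ^ m * q ^ (L - m) * ((L - m : ℕ) : ℝ) =
      q * L := by
  cases L with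
  | zero => simp
  | succ n =>
    rw [Finset.sum_range_succ]
    simp only [Nat.sub_self, Nat.cast_zero, mul_zero, add_zero]
    have h1 : ∀ m ∈ range (n + 1), ((n + 1).choose m : ℝ) * (1 - q) ^ m * q ^ (n + 1 - m) *
        ((n + 1 - m : ℕ) : ℝ) = ((n + 1 : ℕ) : ℝ) * q * ((1 - q) ^ m * q ^ (n - m) * (n.choose m : ℝ)) := by
      intro m hm
      rw [Finset.mem_range] at hm
      have e1 := Nat.choose_mul_succ_eq n m
      have e2 : (n.choose m : ℝ) * ((n + 1 : ℕ) : ℝ) =
          ((n + 1).choose m : ℝ) * ((n + 1 - m : ℕ) : ℝ) := by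
        exact_mod_cast e1
      have e3 : n + 1 - m = n - m + 1 := by omega
      have e4 : q ^ (n + 1 - m) = q * q ^ (n - m) := by rw [e3, pow_succ]; ring
      rw [e4]
      calc ((n + 1).choose m : ℝ) * (1 - q) ^ m * (q * q ^ (n - m)) * ((n + 1 - m : ℕ) : ℝ)
          = (((n + 1).choose m : ℝ) * ((n + 1 - m : ℕ) : ℝ)) * ((1 - q) ^ m * (q * q ^ (n - m))) := by
            ring
        _ = _ := by rw [← e2]; ring
    rw [Finset.sum_congr rfl h1, ← Finset.mul_sum, ← add_pow]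
    simp
    ring

lemma step_l : step ρ q (fun s => ((s.2 : ℕ) : ℝ)) =
    q • (fun s => ((s.2 : ℕ) : ℝ)) + (q * ρ) • (fun _ => (1 : ℝ)) := by
  funext s
  obtain ⟨n, l⟩ := s
  unfold step
  rw [Finset.sum_range_succ, Finset.sum_range_one]
  simp only [zero_ne_one, if_false, if_true]
  rw [binom_mean q (l + 0), binom_mean q (l + 1)]
  simp only [Pi.add_apply, Pi.smul_apply, smul_eq_mul]
  push_cast
  ring

/-- Cesàro means -/
noncomputable def ces (ρ q : ℝ) (T : ℕ) (h : ℕ × ℕ → ℝ) : ℝ :=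
  (∑ t ∈ range (T + 1), EE ρ q t h) / ((T + 1 : ℕ) : ℝ)

lemma exists_stationary (hρ0 : 0 < ρ) (hρ : ρ < 1) (hq0 : 0 < q) (hq : q < 1) :
    ∃ P : ℕ × ℕ → ℝ, IsStationary ρ q P := by
  classical
  have hT : ∀ T : ℕ, (0 : ℝ) < ((T + 1 : ℕ) : ℝ) := fun T => by positivity
  have ces_nonneg : ∀ T {h : ℕ × ℕ → ℝ}, (∀ s, 0 ≤ h s) → 0 ≤ ces ρ q T h := by
    intro T h hh
    unfold ces
    apply div_nonneg _ (hT T).le
    exact Finset.sum_nonneg fun t _ => EE_nonneg hρ0.le hρ.le hq0.le hq.le t hh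
  have ces_mono : ∀ T {h₁ h₂ : ℕ × ℕ → ℝ}, (∀ s, h₁ s ≤ h₂ s) → ces ρ q T h₁ ≤ ces ρ q T h₂ := by
    intro T h₁ h₂ hh
    unfold ces
    apply div_le_div_of_nonneg_right _ (hT T).le
    exact Finset.sum_le_sum fun t _ => EE_mono hρ0.le hρ.le hq0.le hq.le t hh
  have ces_add : ∀ T (h₁ h₂ : ℕ × ℕ → ℝ), ces ρ q T (h₁ + h₂) = ces ρ q T h₁ + ces ρ q T h₂ := by
    intro T h₁ h₂
    unfold ces
    simp only [EE_add, Finset.sum_add_distrib]
    ring
  have ces_smul : ∀ T a (h : ℕ × ℕ → ℝ), ces ρ q T (a • h) = a * ces ρ q T h := by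
    intro T a h
    unfold ces
    simp only [EE_smul, ← Finset.mul_sum]
    ring
  have ces_sum : ∀ T {ι : Type} (F : Finset ι) (h : ι → ℕ × ℕ → ℝ),
      ces ρ q T (∑ i ∈ F, h i) = ∑ i ∈ F, ces ρ q T (h i) := by
    intro T ι F h
    unfold ces
    simp only [EE_sum]
    rw [Finset.sum_comm, Finset.sum_div]
  have ces_one : ∀ T, ces ρ q T (fun _ => 1) = 1 := by
    intro T
    unfold ces
    simp only [EE_one, Finset.sum_const, Finset.card_range, nsmul_eq_mul, mul_one]
    exact div_self (hT T).ne'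
  have ces_step : ∀ T (h : ℕ × ℕ → ℝ), ces ρ q T (step ρ q h) =
      ces ρ q T h + (EE ρ q (T + 1) h - EE ρ q 0 h) / ((T + 1 : ℕ) : ℝ) := by
    intro T h
    unfold ces
    rw [← add_div]
    congr 1
    have e1 : ∑ t ∈ range (T + 1), EE ρ q t (step ρ q h) =
        ∑ t ∈ range (T + 1), EE ρ q (t + 1) h := rfl
    have e2 := Finset.sum_range_succ' (fun t => EE ρ q t h) (T + 1)
    have e3 := Finset.sum_range_succ (fun t => EE ρ q t h) (T + 1)
    rw [e1]
    linarith
  -- indicators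
  set ind : ℕ × ℕ → ℕ × ℕ → ℝ := fun s' t => if t = s' then 1 else 0 with hind
  have ind_nonneg : ∀ s' t, 0 ≤ ind s' t := by
    intro s' t; simp only [hind]; split_ifs <;> norm_num
  have ind_le : ∀ s' t, ind s' t ≤ 1 := by
    intro s' t; simp only [hind]; split_ifs <;> norm_num
  -- the limit along an ultrafilter
  set U : Ultrafilter ℕ := hyperfilter ℕ with hU
  have hUtop : (U : Filter ℕ) ≤ atTop := by
    rw [hU, ← Nat.cofinite_eq_atTop]
    exact hyperfilter_le_cofinite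
  have hlim : ∀ s', ∃ x : ℝ, Tendsto (fun T => ces ρ q T (ind s')) U (𝓝 x) := by
    intro s'
    have h1 : ∀ T, ces ρ q T (ind s') ∈ Set.Icc (0 : ℝ) 1 := by
      intro T
      refine ⟨ces_nonneg T (ind_nonneg s'), ?_⟩
      rw [← ces_one T]
      exact ces_mono T (ind_le s')
    have h2 := (isCompact_Icc (a := (0 : ℝ)) (b := 1)).ultrafilter_le_nhds
      (U.map (fun T => ces ρ q T (ind s'))) (by
        rw [le_principal_iff]
        exact Filter.mem_map.2 (Filter.univ_mem' h1))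
    obtain ⟨x, _, hx⟩ := h2
    exact ⟨x, hx⟩
  choose Q hQ using hlim
  have hQ0 : ∀ s, 0 ≤ Q s := fun s => ge_of_tendsto' (hQ s) fun T => ces_nonneg T (ind_nonneg s)
  -- mass at most one
  have hQsum : ∀ F : Finset (ℕ × ℕ), ∑ s ∈ F, Q s ≤ 1 := by
    intro F
    have h1 : Tendsto (fun T => ∑ s ∈ F, ces ρ q T (ind s)) U (𝓝 (∑ s ∈ F, Q s)) :=
      tendsto_finsetSum _ fun s _ => hQ s
    apply le_of_tendsto' h1
    intro T
    rw [← ces_sum, ← ces_one T]
    apply ces_mono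
    intro t
    rw [Finset.sum_apply]
    simp only [hind]
    rw [Finset.sum_ite_eq]
    split_ifs <;> norm_num
  have hQs : Summable Q := summable_of_sum_le hQ0 hQsum
  -- invariance
  have hinv : ∀ s', HasSum (fun s => Q s * step ρ q (fun t => if t = s' then 1 else 0) s) (Q s') := by
    rintro ⟨n', l'⟩
    set Bx := (range (n' + 2)) ×ˢ (range (l' + n' + 2)) with hBx
    have h2 : ∀ s : ℕ × ℕ, s ∉ Bx → step ρ q (ind (n', l')) s = 0 := by
      rintro ⟨n, l⟩ hs
      simp only [hind]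
      unfold step
      apply Finset.sum_eq_zero
      intro e he
      simp only
      have hneg : ¬ (n ≤ n' + 1 ∧ l + e = l' + (n' - (n - 1))) := by
        rintro ⟨h3, h4⟩
        apply hs
        simp only [Finset.mem_range] at he
        simp only [hBx, Finset.mem_product, Finset.mem_range]
        constructor <;> omega
      rw [inner_sum q n l e n' l', if_neg hneg, mul_zero]
    have h3 : step ρ q (ind (n', l')) = ∑ s ∈ Bx, (step ρ q (ind (n', l')) s) • ind s := by
      funext t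
      rw [Finset.sum_apply]
      simp only [Pi.smul_apply, smul_eq_mul, hind, mul_ite, mul_one, mul_zero]
      rw [Finset.sum_ite_eq]
      split_ifs with ht
      · rfl
      · exact h2 t ht
    have h4 : Tendsto (fun T => ∑ s ∈ Bx, step ρ q (ind (n', l')) s * ces ρ q T (ind s)) U
        (𝓝 (∑ s ∈ Bx, step ρ q (ind (n', l')) s * Q s)) :=
      tendsto_finsetSum _ fun s _ => (hQ s).const_mul _
    have h5 : ∀ T, ∑ s ∈ Bx, step ρ q (ind (n', l')) s * ces ρ q T (ind s) =
        ces ρ q T (ind (n', l')) +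
          (EE ρ q (T + 1) (ind (n', l')) - EE ρ q 0 (ind (n', l'))) / ((T + 1 : ℕ) : ℝ) := by
      intro T
      rw [← ces_step]
      conv_rhs => rw [h3]
      rw [ces_sum]
      apply Finset.sum_congr rfl
      intro s _
      rw [ces_smul]
    have h6 : Tendsto (fun T : ℕ => (EE ρ q (T + 1) (ind (n', l')) - EE ρ q 0 (ind (n', l'))) /
        ((T + 1 : ℕ) : ℝ)) atTop (𝓝 0) := by
      have h7 : Tendsto (fun T : ℕ => (1 : ℝ) / ((T : ℝ) + 1)) atTop (𝓝 0) :=
        tendsto_one_div_add_atTop_nhds_zero_nat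
      apply squeeze_zero_norm _ h7
      intro T
      rw [norm_div, Real.norm_eq_abs, Real.norm_eq_abs, abs_of_pos (hT T)]
      push_cast
      apply div_le_div_of_nonneg_right _ (by positivity)
      have b1 := EE_nonneg hρ0.le hρ.le hq0.le hq.le (T + 1) (ind_nonneg (n', l'))
      have b2 := EE_nonneg hρ0.le hρ.le hq0.le hq.le 0 (ind_nonneg (n', l'))
      have b3 := EE_mono (ρ := ρ) (q := q) hρ0.le hρ.le hq0.le hq.le (T + 1) (ind_le (n', l'))
      have b4 := EE_mono (ρ := ρ) (q := q) hρ0.le hρ.le hq0.le hq.le 0 (ind_le (n', l'))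
      rw [EE_one] at b3 b4
      rw [abs_le]
      constructor <;> linarith
    have h8 : Tendsto (fun T => ∑ s ∈ Bx, step ρ q (ind (n', l')) s * ces ρ q T (ind s)) U
        (𝓝 (Q (n', l') + 0)) := by
      simp only [h5]
      exact (hQ (n', l')).add (h6.mono_left hUtop)
    have h9 := tendsto_nhds_unique h4 h8
    rw [add_zero] at h9
    rw [← h9]
    have h10 : ∑ s ∈ Bx, step ρ q (ind (n', l')) s * Q s =
        ∑ s ∈ Bx, Q s * step ρ q (fun t => if t = (n', l') then 1 else 0) s :=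
      Finset.sum_congr rfl fun s _ => mul_comm _ _
    rw [h10]
    apply hasSum_sum_of_ne_finset_zero
    intro s hs
    have := h2 s hs
    simp only [hind] at this
    rw [this, mul_zero]
  -- positive mass
  have hpos : 0 < ∑' s, Q s := by
    set Cc : ℝ := q / (1 - q) with hCc
    have hCc0 : 0 < Cc := div_pos hq0 (by linarith)
    have hl : ∀ t, EE ρ q t (fun s => ((s.2 : ℕ) : ℝ)) ≤ Cc := by
      intro t
      induction t with
      | zero => unfold EE; simp [hCc0.le]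
      | succ t ih =>
        rw [EE_succ, step_l, EE_add, EE_smul, EE_smul, EE_one]
        have e1 : Cc * (1 - q) = q := by
          rw [hCc]; exact div_mul_cancel₀ _ (by linarith)
        nlinarith
    have hN : ∀ T, ces ρ q T busy ≤ ρ := by
      intro T
      have h1 : ∀ M : ℕ, ∑ t ∈ range M, EE ρ q t busy =
          ρ * M - EE ρ q M (fun s => ((s.1 + s.2 : ℕ) : ℝ)) := by
        intro M
        induction M with
        | zero => simp [EE]
        | succ M ih =>
          rw [Finset.sum_range_succ, ih, EE_succ, step_N, EE_add, EE_add, EE_smul, EE_smul, EE_one]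
          push_cast
          ring
      unfold ces
      rw [h1, div_le_iff₀ (hT T)]
      have := EE_nonneg hρ0.le hρ.le hq0.le hq.le (T + 1)
        (h := fun s => ((s.1 + s.2 : ℕ) : ℝ)) (fun s => Nat.cast_nonneg _)
      linarith
    obtain ⟨A, hA⟩ := exists_nat_gt (Cc / (1 - ρ))
    have hAρ : Cc < (1 - ρ) * A := by
      rw [div_lt_iff₀ (by linarith)] at hA
      linarith
    have hA0 : (0 : ℝ) < A := by
      have : 0 < Cc / (1 - ρ) := div_pos hCc0 (by linarith)
      linarith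
    have key : ∀ T, (1 - ρ) - Cc / A ≤ ∑ l ∈ range A, ces ρ q T (ind (0, l)) := by
      intro T
      rw [← ces_sum]
      have h1 : ∀ s : ℕ × ℕ, ((fun _ : ℕ × ℕ => (1 : ℝ)) + ((-1 : ℝ) • busy +
          (-(1 / (A : ℝ))) • (fun s : ℕ × ℕ => ((s.2 : ℕ) : ℝ))) : ℕ × ℕ → ℝ) s ≤
          (∑ l ∈ range A, ind (0, l)) s := by
        rintro ⟨n, l⟩
        rw [Finset.sum_apply]
        simp only [Pi.add_apply, Pi.smul_apply, smul_eq_mul, busy, hind, Prod.mk.injEq]
        have hl0 : (0 : ℝ) ≤ 1 / (A : ℝ) * l := by positivity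
        have hs0 : (0 : ℝ) ≤ ∑ x ∈ range A, (if n = 0 ∧ l = x then (1 : ℝ) else 0) :=
          Finset.sum_nonneg fun _ _ => by split_ifs <;> norm_num
        rcases Nat.eq_zero_or_pos n with hn | hn
        · subst hn
          simp only [lt_irrefl, if_false, true_and, mul_zero] at hs0 ⊢
          by_cases hlA : l < A
          · rw [Finset.sum_ite_eq, if_pos (Finset.mem_range.2 hlA)]
            linarith
          · have : (A : ℝ) ≤ l := by exact_mod_cast (not_lt.1 hlA)
            have : 1 ≤ 1 / (A : ℝ) * l := by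
              rw [one_div, ← div_eq_inv_mul, le_div_iff₀ hA0]; linarith
            linarith
        · simp only [hn, if_true]
          linarith
      have h2 := ces_mono T h1
      rw [ces_add, ces_add, ces_smul, ces_smul, ces_one] at h2
      have h3 := hN T
      have h4 : ces ρ q T (fun s : ℕ × ℕ => ((s.2 : ℕ) : ℝ)) ≤ Cc := by
        unfold ces
        rw [div_le_iff₀ (hT T)]
        calc ∑ t ∈ range (T + 1), EE ρ q t (fun s : ℕ × ℕ => ((s.2 : ℕ) : ℝ))
            ≤ ∑ t ∈ range (T + 1), Cc := Finset.sum_le_sum fun t _ => hl t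
          _ = Cc * ((T + 1 : ℕ) : ℝ) := by
            rw [Finset.sum_const, Finset.card_range, nsmul_eq_mul, mul_comm]
      have h5 : 1 / (A : ℝ) * ces ρ q T (fun s : ℕ × ℕ => ((s.2 : ℕ) : ℝ)) ≤ Cc / A := by
        rw [one_div, ← div_eq_inv_mul]
        exact div_le_div_of_nonneg_right h4 hA0.le
      linarith
    have h1 : Tendsto (fun T => ∑ l ∈ range A, ces ρ q T (ind (0, l))) U
        (𝓝 (∑ l ∈ range A, Q (0, l))) := tendsto_finsetSum _ fun l _ => hQ (0, l)
    have h2 : (1 - ρ) - Cc / A ≤ ∑ l ∈ range A, Q (0, l) := ge_of_tendsto' h1 key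
    have h3 : 0 < (1 - ρ) - Cc / A := by
      rw [sub_pos, div_lt_iff₀ hA0]; exact hAρ
    have h4 : ∑ l ∈ range A, Q (0, l) ≤ ∑' s, Q s := by
      have e : ∑ l ∈ range A, Q (0, l) =
          ∑ s ∈ (range A).map ⟨fun l => ((0 : ℕ), l), fun a b hab => by simpa using hab⟩, Q s := by
        rw [Finset.sum_map]; rfl
      rw [e]
      exact hQs.sum_le_tsum _ fun s _ => hQ0 s
    linarith
  set M := ∑' s, Q s with hM
  refine ⟨fun s => Q s / M, ?_, ?_, ?_⟩
  · intro s; exact div_nonneg (hQ0 s) hpos.le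
  · have := hQs.hasSum.div_const M
    rwa [← hM, div_self hpos.ne'] at this
  · intro s'
    have := (hinv s').div_const M
    apply this.congr_fun
    intro s
    ring

end Pool.Agent.V11331.LA
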