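import Pool.Agent.V11331.LA.Defs

/-!
# The balance equations in closed form, and the cut equations
-/

namespace Pool.Agent.V11331.LA

open Filter Topology Finset

variable {ρ q : ℝ} {P : ℕ × ℕ → ℝ}

/-- pre-thinning mass -/
noncomputable def pre (ρ : ℝ) (P : ℕ × ℕ → ℝ) (n L : ℕ) : ℝ :=
  (1 - ρ) * P (n, L) + ρ * (if L = 0 then 0 else P (n, L - 1))

lemma inner_sum (q : ℝ) (n l e n' l' : ℕ) :
    ∑ m ∈ range (l + e + 1),
      ((l + e).choose m : ℝ) * (1 - q) ^ m * q ^ (l + e - m) *
        (if (n + m - (if 0 < n then 1 else 0), l + e - m) = (n', l') then (1 : ℝ) else 0) =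
    if n ≤ n' + 1 ∧ l + e = l' + (n' - (n - 1)) then
      ((l' + (n' - (n - 1))).choose (n' - (n - 1)) : ℝ) * (1 - q) ^ (n' - (n - 1)) * q ^ l'
    else 0 := by
  have hn : ∀ m, n + m - (if 0 < n then 1 else 0) = (n - 1) + m := by
    intro m
    split_ifs <;> omega
  simp only [hn, Prod.mk.injEq]
  split_ifs with h
  · obtain ⟨h1, h2⟩ := h
    rw [Finset.sum_eq_single (n' - (n - 1))]
    · have h3 : n - 1 + (n' - (n - 1)) = n' := by omega
      have h4 : l + e - (n' - (n - 1)) = l' := by omega
      rw [if_pos ⟨h3, h4⟩, h4, h2]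
      ring
    · intro m _ hm
      rw [if_neg, mul_zero]
      rintro ⟨h3, _⟩
      omega
    · intro hm
      exfalso
      apply hm
      simp only [Finset.mem_range]
      omega
  · apply Finset.sum_eq_zero
    intro m hm
    rw [if_neg, mul_zero]
    rintro ⟨h3, h4⟩
    simp only [Finset.mem_range] at hm
    apply h
    constructor <;> omega

lemma balance (h : IsStationary ρ q P) (n' l' : ℕ) :
    P (n', l') = ∑ n ∈ range (n' + 2),
      ((l' + (n' - (n - 1))).choose (n' - (n - 1)) : ℝ) * (1 - q) ^ (n' - (n - 1)) * q ^ l' *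
        pre ρ P n (l' + (n' - (n - 1))) := by
  have h1 := h.stat (n', l')
  have h2 : ∀ s : ℕ × ℕ, s ∉ (range (n' + 2)) ×ˢ (range (l' + n' + 2)) →
      P s * step ρ q (fun t => if t = (n', l') then 1 else 0) s = 0 := by
    rintro ⟨n, l⟩ hs
    have : step ρ q (fun t => if t = (n', l') then 1 else 0) (n, l) = 0 := by
      unfold step
      apply Finset.sum_eq_zero
      intro e he
      simp only
      have hneg : ¬ (n ≤ n' + 1 ∧ l + e = l' + (n' - (n - 1))) := by
        rintro ⟨h3, h4⟩
        apply hs
        simp only [Finset.mem_range] at he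
        simp only [Finset.mem_product, Finset.mem_range]
        constructor <;> omega
      rw [inner_sum q n l e n' l', if_neg hneg, mul_zero]
    rw [this, mul_zero]
  have h3 := (hasSum_sum_of_ne_finset_zero h2).unique h1
  rw [← h3, Finset.sum_product]
  apply Finset.sum_congr rfl
  intro n hn
  simp only [Finset.mem_range] at hn
  have h4 : ∀ l, step ρ q (fun t => if t = (n', l') then 1 else 0) (n, l) =
      (1 - ρ) * (if n ≤ n' + 1 ∧ l = l' + (n' - (n - 1)) then
      ((l' + (n' - (n - 1))).choose (n' - (n - 1)) : ℝ) * (1 - q) ^ (n' - (n - 1)) * q ^ l'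
      else 0) + ρ * (if n ≤ n' + 1 ∧ l + 1 = l' + (n' - (n - 1)) then
      ((l' + (n' - (n - 1))).choose (n' - (n - 1)) : ℝ) * (1 - q) ^ (n' - (n - 1)) * q ^ l'
      else 0) := by
    intro l
    unfold step
    rw [Finset.sum_range_succ, Finset.sum_range_one]
    simp only [zero_ne_one, if_false, if_true]
    rw [inner_sum q n l 0 n' l', inner_sum q n l 1 n' l']
    rfl
  simp only [h4]
  have hn1 : n ≤ n' + 1 := by omega
  simp only [hn1, true_and, mul_add, Finset.sum_add_distrib]
  unfold pre
  rw [mul_add]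
  congr 1
  · rw [Finset.sum_eq_single (l' + (n' - (n - 1)))]
    · rw [if_pos rfl]; ring
    · intro l _ hl
      rw [if_neg hl]; ring
    · intro hl
      exfalso
      apply hl
      simp only [Finset.mem_range]
      omega
  · by_cases h0 : l' + (n' - (n - 1)) = 0
    · rw [if_pos h0]
      rw [mul_zero, mul_zero]
      apply Finset.sum_eq_zero
      intro l _
      rw [if_neg (by omega)]; ring
    · rw [if_neg h0]
      rw [Finset.sum_eq_single (l' + (n' - (n - 1)) - 1)]
      · rw [if_pos (by omega)]; ring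
      · intro l _ hl
        rw [if_neg (by omega)]; ring
      · intro hl
        exfalso
        apply hl
        simp only [Finset.mem_range]
        omega

/-- the mass of `{n ≥ 1, n + l = k + 1}` -/
noncomputable def lvl (P : ℕ × ℕ → ℝ) (k : ℕ) : ℝ := ∑ n ∈ range (k + 1), P (n + 1, k - n)

lemma step_total (ρ q : ℝ) (g : ℕ → ℝ) (n l : ℕ) :
    step ρ q (fun t => g (t.1 + t.2)) (n, l) =
      (1 - ρ) * g (n + l - (if 0 < n then 1 else 0)) +
        ρ * g (n + l + 1 - (if 0 < n then 1 else 0)) := by
  have key : ∀ e, ∑ m ∈ range (l + e + 1),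
      ((l + e).choose m : ℝ) * (1 - q) ^ m * q ^ (l + e - m) *
        g (n + m - (if 0 < n then 1 else 0) + (l + e - m)) =
      g (n + l + e - (if 0 < n then 1 else 0)) := by
    intro e
    have h1 : ∀ m ∈ range (l + e + 1),
        ((l + e).choose m : ℝ) * (1 - q) ^ m * q ^ (l + e - m) *
        g (n + m - (if 0 < n then 1 else 0) + (l + e - m)) =
        ((1 - q) ^ m * q ^ (l + e - m) * ((l + e).choose m : ℝ)) *
          g (n + l + e - (if 0 < n then 1 else 0)) := by
      intro m hm
      simp only [Finset.mem_range] at hm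
      have : n + m - (if 0 < n then 1 else 0) + (l + e - m) =
          n + l + e - (if 0 < n then 1 else 0) := by
        split_ifs <;> omega
      rw [this]; ring
    rw [Finset.sum_congr rfl h1, ← Finset.sum_mul, ← add_pow]
    simp
  unfold step
  rw [Finset.sum_range_succ, Finset.sum_range_one]
  simp only [zero_ne_one, if_false, if_true]
  rw [key 0, key 1, add_zero]

lemma cut (h : IsStationary ρ q P) (k : ℕ) : (1 - ρ) * lvl P k = ρ * P (0, k) := by
  classical
  set A : Finset (ℕ × ℕ) := ((range (k + 1)) ×ˢ (range (k + 1))).filter (fun s => s.1 + s.2 ≤ k)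
    with hA
  have hAmem : ∀ s : ℕ × ℕ, s ∈ A ↔ s.1 + s.2 ≤ k := by
    intro s
    simp only [hA, Finset.mem_filter, Finset.mem_product, Finset.mem_range]
    constructor
    · intro hs; exact hs.2
    · intro hs; refine ⟨⟨by omega, by omega⟩, hs⟩
  have h1 : HasSum (fun s => ∑ s' ∈ A, P s * step ρ q (fun t => if t = s' then 1 else 0) s)
      (∑ s' ∈ A, P s') := hasSum_sum (fun s' _ => h.stat s')
  have h2 : ∀ s : ℕ × ℕ, ∑ s' ∈ A, P s * step ρ q (fun t => if t = s' then 1 else 0) s =
      P s * step ρ q (fun t => (fun N => if N ≤ k then (1 : ℝ) else 0) (t.1 + t.2)) s := by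
    intro s
    rw [← Finset.mul_sum]
    congr 1
    unfold step
    rw [Finset.sum_comm]
    apply Finset.sum_congr rfl
    intro e _
    rw [← Finset.mul_sum]
    congr 1
    rw [Finset.sum_comm]
    apply Finset.sum_congr rfl
    intro m _
    rw [← Finset.mul_sum]
    congr 1
    rw [Finset.sum_ite_eq]
    simp only [hAmem]
  have h3 : HasSum (fun s : ℕ × ℕ => P s * (if s.1 + s.2 ≤ k then (1 : ℝ) else 0))
      (∑ s' ∈ A, P s') := by
    have : ∑ s' ∈ A, P s' = ∑ s' ∈ A, P s' * (if s'.1 + s'.2 ≤ k then (1 : ℝ) else 0) := by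
      apply Finset.sum_congr rfl
      intro s hs
      rw [if_pos ((hAmem s).1 hs), mul_one]
    rw [this]
    apply hasSum_sum_of_ne_finset_zero
    intro s hs
    rw [if_neg (fun h' => hs ((hAmem s).2 h')), mul_zero]
  have h4 := h1.sub h3
  rw [sub_self] at h4
  have h5 : HasSum (fun s : ℕ × ℕ => ∑ j ∈ range (k + 1),
      (if s = (j + 1, k - j) then (1 - ρ) * P (j + 1, k - j) else 0) -
      (if s = (0, k) then ρ * P (0, k) else 0))
      (∑ j ∈ range (k + 1), (1 - ρ) * P (j + 1, k - j) - ρ * P (0, k)) :=
    (hasSum_sum (fun j _ => hasSum_ite_eq _ _)).sub (hasSum_ite_eq _ _)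
  have h6 : (fun s : ℕ × ℕ => ∑ j ∈ range (k + 1),
      (if s = (j + 1, k - j) then (1 - ρ) * P (j + 1, k - j) else 0) -
      (if s = (0, k) then ρ * P (0, k) else 0)) =
      (fun s => ∑ s' ∈ A, P s * step ρ q (fun t => if t = s' then 1 else 0) s -
        P s * (if s.1 + s.2 ≤ k then (1 : ℝ) else 0)) := by
    funext s
    rw [h2]
    obtain ⟨n, l⟩ := s
    rw [step_total ρ q (fun N => if N ≤ k then (1 : ℝ) else 0) n l]
    simp only [Prod.mk.injEq]
    rcases Nat.eq_zero_or_pos n with hn | hn
    · subst hn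
      have : ∀ j ∈ range (k + 1), (if 0 = j + 1 ∧ l = k - j then
          (1 - ρ) * P (j + 1, k - j) else 0) = 0 := by
        intro j _
        rw [if_neg (by omega)]
      rw [Finset.sum_eq_zero this]
      simp only [lt_irrefl, if_false, true_and, zero_add, Nat.sub_zero]
      rcases lt_trichotomy l k with hl | hl | hl
      · rw [if_neg hl.ne, if_pos hl.le, if_pos (by omega)]; ring
      · subst hl
        rw [if_pos rfl, if_pos le_rfl, if_neg (by omega)]; ring
      · rw [if_neg hl.ne', if_neg (by omega), if_neg (by omega)]; ring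
    · rw [if_neg (fun h' : n = 0 ∧ l = k => by omega)]
      simp only [hn, if_true]
      by_cases hk : n + l = k + 1
      · rw [Finset.sum_eq_single (n - 1)]
        · have e1 : n - 1 + 1 = n := by omega
          have e2 : k - (n - 1) = l := by omega
          rw [if_pos ⟨e1.symm, e2.symm⟩, e1, e2, if_pos (by omega), if_neg (by omega),
            if_neg (by omega)]
          ring
        · intro j _ hj
          rw [if_neg (by omega)]
        · intro hj
          exfalso; apply hj
          simp only [Finset.mem_range]; omega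
      · rw [Finset.sum_eq_zero]
        · by_cases hk2 : n + l ≤ k
          · rw [if_pos hk2, if_pos (by omega), if_pos (by omega)]; ring
          · rw [if_neg hk2, if_neg (by omega), if_neg (by omega)]; ring
        · intro j hj
          simp only [Finset.mem_range] at hj
          rw [if_neg (by omega)]
  rw [h6] at h5
  have h7 := h5.unique h4
  unfold lvl
  rw [Finset.mul_sum]
  linarith

end Pool.Agent.V11331.LA
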