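import Mathlib

/-!
# The inner series `∑_j β_j (z^j - 1)`
-/

namespace Pool.Agent.V11331.LA

open Filter Topology Finset

variable {β : ℕ → ℂ} {S : ℂ → ℂ}

/-- `β` with the unused entry `0` erased -/
noncomputable def bf (β : ℕ → ℂ) (j : ℕ) : ℂ := if j = 0 then 0 else β j

lemma sum_bf (β : ℕ → ℂ) (z : ℂ) (J : ℕ) :
    ∑ i ∈ range (J + 1), bf β i * z ^ i =
      ∑ j ∈ Icc 1 J, β j * (z ^ j - 1) + ∑ j ∈ Icc 1 J, β j := by
  rw [← Finset.sum_add_distrib, Finset.sum_range_succ']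
  simp only [bf, if_true, zero_mul, add_zero, Nat.succ_ne_zero, if_false]
  have key : ∀ f : ℕ → ℂ, ∑ i ∈ range J, f (i + 1) = ∑ j ∈ Icc 1 J, f j := by
    intro f
    rw [Finset.range_eq_Ico, Finset.sum_Ico_add' f 0 J 1]
    rfl
  rw [key (fun j => β j * z ^ j)]
  apply Finset.sum_congr rfl
  intro j _
  ring

/-- the limit of the partial sums of `∑_j β_j` -/
lemma tendsto_B (h : ∀ z : ℂ, ‖z‖ ≤ 1 →
    Tendsto (fun J : ℕ => ∑ j ∈ Icc 1 J, β j * (z ^ j - 1)) atTop (𝓝 (S z))) :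
    Tendsto (fun J : ℕ => ∑ j ∈ Icc 1 J, β j) atTop (𝓝 (-S 0)) := by
  have h0 := (h 0 (by simp)).neg
  apply h0.congr
  intro J
  rw [← Finset.sum_neg_distrib]
  apply Finset.sum_congr rfl
  intro j hj
  rw [Finset.mem_Icc] at hj
  rw [zero_pow (by omega)]
  ring

lemma tendsto_bf (h : ∀ z : ℂ, ‖z‖ ≤ 1 →
    Tendsto (fun J : ℕ => ∑ j ∈ Icc 1 J, β j * (z ^ j - 1)) atTop (𝓝 (S z)))
    {z : ℂ} (hz : ‖z‖ ≤ 1) :
    Tendsto (fun n : ℕ => ∑ i ∈ range n, bf β i * z ^ i) atTop (𝓝 (S z - S 0)) := by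
  rw [← tendsto_add_atTop_iff_nat 1]
  have := (h z hz).add (tendsto_B h)
  rw [← sub_eq_add_neg] at this
  apply this.congr
  intro J
  rw [sum_bf]

lemma one_eq (h : ∀ z : ℂ, ‖z‖ ≤ 1 →
    Tendsto (fun J : ℕ => ∑ j ∈ Icc 1 J, β j * (z ^ j - 1)) atTop (𝓝 (S z))) : S 1 = 0 := by
  have h1 := h 1 (by simp)
  apply tendsto_nhds_unique h1
  simp

lemma bf_bound (h : ∀ z : ℂ, ‖z‖ ≤ 1 →
    Tendsto (fun J : ℕ => ∑ j ∈ Icc 1 J, β j * (z ^ j - 1)) atTop (𝓝 (S z))) :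
    ∃ C : ℝ, 0 ≤ C ∧ ∀ j, ‖bf β j‖ ≤ C := by
  have h1 := tendsto_bf h (z := 1) (by simp)
  simp only [one_pow, mul_one] at h1
  have h2 : Tendsto (bf β) atTop (𝓝 0) := by
    have h3 := ((tendsto_add_atTop_iff_nat 1).2 h1).sub h1
    rw [sub_self] at h3
    apply h3.congr
    intro n
    rw [Finset.sum_range_succ]
    ring
  obtain ⟨C, hC⟩ := h2.norm.bddAbove_range
  refine ⟨C, ?_, fun j => hC ⟨j, rfl⟩⟩
  exact (norm_nonneg _).trans (hC ⟨0, rfl⟩)

lemma summable_of_bound {f : ℕ → ℂ} {C : ℝ} (hf : ∀ j, ‖f j‖ ≤ C) {z : ℂ} (hz : ‖z‖ < 1) :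
    Summable fun j => f j * z ^ j := by
  apply Summable.of_norm_bounded ((summable_geometric_of_lt_one (norm_nonneg z) hz).mul_left C)
  intro j
  rw [norm_mul, norm_pow]
  exact mul_le_mul_of_nonneg_right (hf j) (by positivity)

lemma tsum_bf (h : ∀ z : ℂ, ‖z‖ ≤ 1 →
    Tendsto (fun J : ℕ => ∑ j ∈ Icc 1 J, β j * (z ^ j - 1)) atTop (𝓝 (S z)))
    {z : ℂ} (hz : ‖z‖ < 1) : ∑' j, bf β j * z ^ j = S z - S 0 := by
  obtain ⟨C, _, hC⟩ := bf_bound h
  have h1 := (summable_of_bound hC hz).hasSum.tendsto_sum_nat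
  exact tendsto_nhds_unique h1 (tendsto_bf h hz.le)

lemma lim_S (h : ∀ z : ℂ, ‖z‖ ≤ 1 →
    Tendsto (fun J : ℕ => ∑ j ∈ Icc 1 J, β j * (z ^ j - 1)) atTop (𝓝 (S z))) :
    Tendsto (fun x : ℝ => S (x : ℂ)) (𝓝[<] 1) (𝓝 0) := by
  have h1 := tendsto_bf h (z := 1) (by simp)
  simp only [one_pow, mul_one, one_eq h, zero_sub] at h1
  have h2 := Complex.tendsto_tsum_powerSeries_nhdsWithin_lt h1
  rw [tendsto_map'_iff] at h2
  have h3 : Tendsto (fun x : ℝ => (∑' j, bf β j * (x : ℂ) ^ j) + S 0) (𝓝[<] 1) (𝓝 0) := by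
    have := h2.add_const (S 0)
    simpa using this
  apply h3.congr'
  have hI : ∀ᶠ x : ℝ in 𝓝[<] (1 : ℝ), x ∈ Set.Ioo (0 : ℝ) 1 :=
    Ioo_mem_nhdsLT (by norm_num)
  filter_upwards [hI] with x hx
  rw [tsum_bf h (by rw [Complex.norm_real, Real.norm_eq_abs, abs_lt]; constructor <;>
    linarith [hx.1, hx.2])]
  ring

lemma differentiableOn_of_bound {f : ℕ → ℂ} {C : ℝ} (hC : 0 ≤ C) (hf : ∀ j, ‖f j‖ ≤ C) :
    DifferentiableOn ℂ (fun w => ∑' j, f j * w ^ j) (Metric.ball (0 : ℂ) 1) := by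
  intro w hw
  rw [Metric.mem_ball, dist_zero_right] at hw
  obtain ⟨r, hr1, hr2⟩ := exists_between hw
  have hr0 : 0 ≤ r := (norm_nonneg w).trans hr1.le
  have h1 : DifferentiableOn ℂ (fun w => ∑' j, f j * w ^ j) (Metric.ball (0 : ℂ) r) := by
    apply Complex.differentiableOn_tsum_of_summable_norm
      ((summable_geometric_of_lt_one hr0 hr2).mul_left C)
    · intro j
      exact ((differentiable_id.pow j).const_mul (f j)).differentiableOn
    · exact Metric.isOpen_ball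
    · intro j v hv
      rw [Metric.mem_ball, dist_zero_right] at hv
      rw [norm_mul, norm_pow]
      exact mul_le_mul (hf j) (pow_le_pow_left₀ (norm_nonneg _) hv.le _) (by positivity) hC
  exact (h1.differentiableAt (Metric.isOpen_ball.mem_nhds (by
    rw [Metric.mem_ball, dist_zero_right]; exact hr1))).differentiableWithinAt

/-- If `S` is real on a left neighbourhood of `1`, then it is real on `(-1, 1)`. -/
lemma real_all (h : ∀ z : ℂ, ‖z‖ ≤ 1 →
    Tendsto (fun J : ℕ => ∑ j ∈ Icc 1 J, β j * (z ^ j - 1)) atTop (𝓝 (S z)))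
    (hr : ∀ᶠ x : ℝ in 𝓝[<] (1 : ℝ), (S (x : ℂ)).im = 0) {x : ℝ} (hx : |x| < 1) :
    (S (x : ℂ)).im = 0 := by
  obtain ⟨C, hC0, hC⟩ := bf_bound h
  set f : ℕ → ℂ := fun j => (((bf β j).im : ℝ) : ℂ) with hf
  have hfC : ∀ j, ‖f j‖ ≤ C := by
    intro j
    rw [hf]
    simp only
    rw [Complex.norm_real, Real.norm_eq_abs]
    exact (Complex.abs_im_le_norm _).trans (hC j)
  set H : ℂ → ℂ := fun w => ∑' j, f j * w ^ j + (((S 0).im : ℝ) : ℂ) with hH
  have hHd : DifferentiableOn ℂ H (Metric.ball (0 : ℂ) 1) :=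
    (differentiableOn_of_bound hC0 hfC).add_const _
  have hHr : ∀ t : ℝ, |t| < 1 → H (t : ℂ) = (((S (t : ℂ)).im : ℝ) : ℂ) := by
    intro t ht
    have ht' : ‖(t : ℂ)‖ < 1 := by rw [Complex.norm_real, Real.norm_eq_abs]; exact ht
    have h1 := tsum_bf h ht'
    have h2 : S (t : ℂ) = ∑' j, bf β j * (t : ℂ) ^ j + S 0 := by rw [h1]; ring
    rw [h2, Complex.add_im, Complex.im_tsum (summable_of_bound hC ht')]
    rw [hH]
    simp only
    rw [Complex.ofReal_add, Complex.ofReal_tsum]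
    congr 1
    apply tsum_congr
    intro j
    rw [hf]
    simp only
    rw [← Complex.ofReal_pow, ← Complex.ofReal_mul]
    congr 1
    rw [Complex.im_mul_ofReal]
  have hzero : Set.EqOn H 0 (Metric.ball (0 : ℂ) 1) := by
    have hI : ∀ᶠ x : ℝ in 𝓝[<] (1 : ℝ), x ∈ Set.Ioo (0 : ℝ) 1 := Ioo_mem_nhdsLT (by norm_num)
    obtain ⟨l, hl, hl2⟩ := (mem_nhdsLT_iff_exists_Ioo_subset' (show (0 : ℝ) < 1 by norm_num)).1
      (hI.and hr)
    obtain ⟨t, ht1, ht2⟩ := exists_between (Set.mem_Iio.1 hl)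
    have htI := hl2 ⟨ht1, ht2⟩
    have ht0 : 0 < t := htI.1.1
    have hmem : (t : ℂ) ∈ Metric.ball (0 : ℂ) 1 := by
      rw [Metric.mem_ball, dist_zero_right, Complex.norm_real, Real.norm_eq_abs, abs_lt]
      constructor <;> linarith
    apply (hHd.analyticOnNhd Metric.isOpen_ball).eqOn_zero_of_preconnected_of_frequently_eq_zero
      (convex_ball _ _).isPreconnected hmem
    have h1 : ∀ᶠ s : ℝ in 𝓝[≠] t, H (s : ℂ) = 0 := by
      apply nhdsWithin_le_nhds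
      filter_upwards [Ioo_mem_nhds ht1 ht2] with s hs
      have := hl2 hs
      rw [hHr s (by rw [abs_lt]; constructor <;> linarith [this.1.1, this.1.2]), this.2]
      simp
    have h2 : Tendsto (fun s : ℝ => (s : ℂ)) (𝓝[≠] t) (𝓝[≠] (t : ℂ)) := by
      apply tendsto_nhdsWithin_of_tendsto_nhds_of_eventually_within
      · exact (Complex.continuous_ofReal.tendsto t).mono_left nhdsWithin_le_nhds
      · filter_upwards [self_mem_nhdsWithin] with s hs
        intro h'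
        apply hs
        exact Complex.ofReal_injective h'
    exact h2.frequently h1.frequently
  have h3 := hzero (x := (x : ℂ)) (by
    rw [Metric.mem_ball, dist_zero_right, Complex.norm_real, Real.norm_eq_abs]; exact hx)
  rw [hHr x hx] at h3
  simpa using h3

end Pool.Agent.V11331.LA
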