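import Mathlib

/-!
# The late-arrivals queue: definitions
-/

namespace Pool.Agent.V11331.LA

open Filter Topology

/-- `step ρ q h (n, l) = E[h(n_{t+1}, l_{t+1}) | (n_t, l_t) = (n, l)]` for the late-arrivals chain:
`e = ε_t` is `1` with probability `ρ` and `0` with probability `1 - ρ`, given `L = l + e` the number
`m` of arrivals is binomial `(L, 1 - q)`, and the new state is `(n + m - 1[n > 0], L - m)`. -/
noncomputable def step (ρ q : ℝ) (h : ℕ × ℕ → ℝ) (s : ℕ × ℕ) : ℝ :=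
  ∑ e ∈ Finset.range 2, (if e = 1 then ρ else 1 - ρ) *
    ∑ m ∈ Finset.range (s.2 + e + 1),
      ((s.2 + e).choose m : ℝ) * (1 - q) ^ m * q ^ (s.2 + e - m) *
        h (s.1 + m - (if 0 < s.1 then 1 else 0), s.2 + e - m)

/-- `P` is a stationary probability distribution of the late-arrivals chain: it is nonnegative,
has total mass one, and `∑_s P(s) T(s, s') = P(s')` for every state `s'`, where
`T(s, s') = step ρ q 1_{s'} s` is the one-step transition probability. -/
structure IsStationary (ρ q : ℝ) (P : ℕ × ℕ → ℝ) : Prop where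
  nonneg : ∀ s, 0 ≤ P s
  mass : HasSum P 1
  stat : ∀ s', HasSum (fun s => P s * step ρ q (fun t => if t = s' then 1 else 0) s) (P s')

/-- The generating function `P(z, y) = ∑_{n,l} P_{n,l} z^n y^l`. -/
noncomputable def pgf (P : ℕ × ℕ → ℝ) (z y : ℂ) : ℂ :=
  ∑' s : ℕ × ℕ, (P s : ℂ) * z ^ s.1 * y ^ s.2

/-- The product form of the problem, for the parameters `ρ`, `q` and the distribution `P`: there
are complex numbers `β k j` (`k ≥ 0`, `j ≥ 1`; the entry `β k 0` is not used) such that for all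
`|z|, |y| ≤ 1` each inner series `∑_{j ≥ 1} β k j (z^j - 1)` converges (to `S k`; convergence of the
partial sums is all that is asked) and the partial products of
`∏_k (1 + ρ q^{k+1} (y - z) + q^k S k)` converge to `P(z, y)`. -/
def ProductForm (ρ q : ℝ) (P : ℕ × ℕ → ℝ) : Prop :=
  ∃ β : ℕ → ℕ → ℂ, ∀ z y : ℂ, ‖z‖ ≤ 1 → ‖y‖ ≤ 1 → ∃ S : ℕ → ℂ,
    (∀ k, Tendsto (fun J : ℕ => ∑ j ∈ Finset.Icc 1 J, β k j * (z ^ j - 1)) atTop (𝓝 (S k))) ∧
    Tendsto (fun K : ℕ => ∏ k ∈ Finset.range K,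
      (1 + (ρ : ℂ) * (q : ℂ) ^ (k + 1) * (y - z) + (q : ℂ) ^ k * S k)) atTop (𝓝 (pgf P z y))

end Pool.Agent.V11331.LA
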