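import Mathlib

/-!
# Entire power series and infinite products
-/

namespace Pool.Agent.V11331.LA

open Filter Topology Finset

/-- coefficients with infinite radius of convergence -/
def Ent (a : ℕ → ℂ) : Prop := ∀ r : ℝ, 0 ≤ r → Summable fun l => ‖a l‖ * r ^ l

/-- sum of the power series -/
noncomputable def ps (a : ℕ → ℂ) (y : ℂ) : ℂ := ∑' l, a l * y ^ l

/-- coefficients of the derivative -/
noncomputable def shift (a : ℕ → ℂ) (l : ℕ) : ℂ := (l + 1 : ℂ) * a (l + 1)

lemma summable_deriv_bound {a : ℕ → ℂ} (ha : Ent a) {R : ℝ} (hR : 0 ≤ R) :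
    Summable fun n : ℕ => ‖a n‖ * ((n : ℝ) * R ^ (n - 1)) := by
  have h := ha (2 * (R + 1)) (by positivity)
  apply Summable.of_nonneg_of_le (fun n => by positivity) _ h
  intro n
  apply mul_le_mul_of_nonneg_left _ (norm_nonneg _)
  rw [mul_pow]
  have h1 : (n : ℝ) ≤ 2 ^ n := by
    have := Nat.lt_two_pow_self (n := n)
    exact_mod_cast this.le
  have h2 : R ^ (n - 1) ≤ (R + 1) ^ n := by
    calc R ^ (n - 1) ≤ (R + 1) ^ (n - 1) := pow_le_pow_left₀ hR (by linarith) _
      _ ≤ (R + 1) ^ n := pow_le_pow_right₀ (by linarith) (Nat.sub_le _ _)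
  exact mul_le_mul h1 h2 (by positivity) (by positivity)

lemma Ent.summable {a : ℕ → ℂ} (ha : Ent a) (y : ℂ) : Summable fun l => a l * y ^ l := by
  apply Summable.of_norm
  simpa only [norm_mul, norm_pow] using ha ‖y‖ (norm_nonneg _)

lemma Ent.shift {a : ℕ → ℂ} (ha : Ent a) : Ent (shift a) := by
  intro r hr
  have h := summable_deriv_bound ha hr
  have h2 := (summable_nat_add_iff 1).2 h
  apply h2.congr
  intro n
  unfold LA.shift
  rw [norm_mul, Nat.add_sub_cancel]
  have : ‖(n + 1 : ℂ)‖ = (n + 1 : ℝ) := by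
    have : (n + 1 : ℂ) = ((n + 1 : ℕ) : ℂ) := by push_cast; ring
    rw [this, Complex.norm_natCast]; push_cast; ring
  rw [this]
  push_cast
  ring

lemma Ent.hasDerivAt {a : ℕ → ℂ} (ha : Ent a) (y : ℂ) :
    HasDerivAt (ps a) (∑' n : ℕ, a n * ((n : ℂ) * y ^ (n - 1))) y := by
  have hR : 0 ≤ ‖y‖ + 1 := by positivity
  have hu := summable_deriv_bound ha hR
  have key := hasDerivAt_tsum_of_isPreconnected (𝕜 := ℂ) (g := fun n y => a n * y ^ n)
    (g' := fun n y => a n * ((n : ℂ) * y ^ (n - 1))) hu
    (t := Metric.ball (0 : ℂ) (‖y‖ + 1)) Metric.isOpen_ball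
    (convex_ball _ _).isPreconnected (y₀ := 0) (y := y)
    (fun n w _ => (hasDerivAt_pow n w).const_mul (a n)) ?_ (Metric.mem_ball_self (by positivity))
    (ha.summable 0) ?_
  · exact key
  · intro n w hw
    rw [Metric.mem_ball, dist_zero_right] at hw
    rw [norm_mul, norm_mul, norm_pow, Complex.norm_natCast]
    apply mul_le_mul_of_nonneg_left _ (norm_nonneg _)
    apply mul_le_mul_of_nonneg_left _ (Nat.cast_nonneg _)
    exact pow_le_pow_left₀ (norm_nonneg _) hw.le _
  · rw [Metric.mem_ball, dist_zero_right]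
    linarith

lemma Ent.deriv_eq {a : ℕ → ℂ} (ha : Ent a) : deriv (ps a) = ps (LA.shift a) := by
  funext y
  rw [(ha.hasDerivAt y).deriv]
  have hs : Summable fun n : ℕ => a n * ((n : ℂ) * y ^ (n - 1)) := by
    apply Summable.of_norm
    have := summable_deriv_bound ha (norm_nonneg y)
    simpa only [norm_mul, norm_pow, Complex.norm_natCast] using this
  rw [hs.tsum_eq_zero_add]
  simp only [Nat.cast_zero, zero_mul, mul_zero, zero_add]
  unfold ps LA.shift
  apply tsum_congr
  intro n
  rw [Nat.add_sub_cancel]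
  push_cast
  ring

lemma Ent.differentiable {a : ℕ → ℂ} (ha : Ent a) : Differentiable ℂ (ps a) :=
  fun y => (ha.hasDerivAt y).differentiableAt

lemma ps_zero (a : ℕ → ℂ) : ps a 0 = a 0 := by
  unfold ps
  rw [tsum_eq_single 0]
  · simp
  · intro n hn
    simp [hn]

/-- Weierstrass products of summable sequences -/
lemma prod_tendsto {u : ℕ → ℂ} (hu : Summable fun k => ‖u k‖) (R : ℝ) :
    TendstoLocallyUniformlyOn (fun (K : ℕ) (y : ℂ) => ∏ k ∈ range K, (1 + u k * y))
      (fun y => ∏' k, (1 + u k * y)) atTop (Metric.ball (0 : ℂ) R) := by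
  apply HasProdLocallyUniformlyOn.tendstoLocallyUniformlyOn_finsetRange
  apply Summable.hasProdLocallyUniformlyOn_nat_one_add (f := fun k y => u k * y)
    Metric.isOpen_ball (hu.mul_right |R|)
  · filter_upwards with n x hx
    rw [Metric.mem_ball, dist_zero_right] at hx
    rw [norm_mul]
    exact mul_le_mul_of_nonneg_left (hx.le.trans (le_abs_self R)) (norm_nonneg _)
  · intro n
    exact (continuous_const.mul continuous_id).continuousOn

/-- If the partial products of `∏ (c k + b k y)` converge to an entire function, not vanishing at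
`0`, on the closed unit disc, then they do so (after normalisation) locally uniformly. -/
lemma extension {c : ℕ → ℂ} {b : ℕ → ℝ} (hb : Summable b) (hb0 : ∀ k, 0 ≤ b k)
    {a : ℕ → ℂ} (ha : Ent a) (h0 : a 0 ≠ 0)
    (h : ∀ y : ℂ, ‖y‖ ≤ 1 → Tendsto (fun K : ℕ => ∏ k ∈ range K, (c k + b k * y)) atTop
      (𝓝 (ps a y))) :
    (∀ k, c k ≠ 0) ∧ Summable (fun k => ‖(b k : ℂ) / c k‖) ∧
      ∀ R : ℝ, 1 < R → TendstoLocallyUniformlyOn
        (fun (K : ℕ) (y : ℂ) => ∏ k ∈ range K, (1 + (b k : ℂ) / c k * y))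
        (fun y => ps a y / a 0) atTop (Metric.ball (0 : ℂ) R) := by
  have hc0 : Tendsto (fun K : ℕ => ∏ k ∈ range K, c k) atTop (𝓝 (a 0)) := by
    have := h 0 (by simp)
    rw [ps_zero] at this
    simpa using this
  have hcne : ∀ k, c k ≠ 0 := by
    intro k hk
    apply h0
    have h1 : Tendsto (fun K : ℕ => ∏ k ∈ range K, c k) atTop (𝓝 0) := by
      apply tendsto_const_nhds.congr'
      filter_upwards [eventually_gt_atTop k] with K hK
      exact (Finset.prod_eq_zero (Finset.mem_range.2 hK) hk).symm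
    exact tendsto_nhds_unique hc0 h1
  have hpne : ∀ K : ℕ, ∏ k ∈ range K, c k ≠ 0 := fun K => Finset.prod_ne_zero_iff.2 fun k _ => hcne k
  have hc1 : Tendsto c atTop (𝓝 1) := by
    have h1 := (hc0.comp (tendsto_add_atTop_nat 1)).div hc0 h0
    rw [div_self h0] at h1
    apply h1.congr
    intro K
    simp only [Function.comp_apply, Pi.div_apply]
    rw [Finset.prod_range_succ, mul_comm, mul_div_assoc, div_self (hpne K), mul_one]
  have hu : Summable (fun k => ‖(b k : ℂ) / c k‖) := by
    have hev : ∀ᶠ k in atTop, 1 / 2 ≤ ‖c k‖ := by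
      have := hc1.norm
      rw [norm_one] at this
      exact (this.eventually (lt_mem_nhds (show (1 / 2 : ℝ) < 1 by norm_num))).mono
        fun _ h => h.le
    apply Summable.of_norm_bounded_eventually_nat (g := fun k => 2 * b k) (hb.mul_left 2)
    filter_upwards [hev] with k hk
    rw [norm_norm, norm_div, Complex.norm_real, Real.norm_eq_abs, abs_of_nonneg (hb0 k)]
    rw [div_le_iff₀ (by linarith)]
    nlinarith [hb0 k]
  refine ⟨hcne, hu, ?_⟩
  have hT := fun R => prod_tendsto hu R
  -- the limit function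
  set E : ℂ → ℂ := fun y => ∏' k, (1 + (b k : ℂ) / c k * y) with hE
  have hEd : Differentiable ℂ E := by
    intro y
    have h1 := (hT (‖y‖ + 1)).differentiableOn (by
      filter_upwards with K
      apply DifferentiableOn.fun_finsetProd
      intro k _
      exact ((differentiable_id.const_mul _).const_add 1).differentiableOn) Metric.isOpen_ball
    exact h1.differentiableAt (Metric.isOpen_ball.mem_nhds (by
      rw [Metric.mem_ball, dist_zero_right]; linarith))
  have hfac : ∀ (K : ℕ) (y : ℂ), ∏ k ∈ range K, (c k + b k * y) =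
      (∏ k ∈ range K, c k) * ∏ k ∈ range K, (1 + (b k : ℂ) / c k * y) := by
    intro K y
    rw [← Finset.prod_mul_distrib]
    apply Finset.prod_congr rfl
    intro k _
    have := hcne k
    field_simp
  have heq1 : ∀ y ∈ Metric.ball (0 : ℂ) 1, ps a y = a 0 * E y := by
    intro y hy
    have h1 := h y (by rw [Metric.mem_ball, dist_zero_right] at hy; exact hy.le)
    have h2 : Tendsto (fun K : ℕ => (∏ k ∈ range K, c k) *
        ∏ k ∈ range K, (1 + (b k : ℂ) / c k * y)) atTop (𝓝 (a 0 * E y)) :=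
      hc0.mul ((hT 1).tendsto_at hy)
    have h3 : Tendsto (fun K : ℕ => ∏ k ∈ range K, (c k + b k * y)) atTop (𝓝 (a 0 * E y)) :=
      h2.congr fun K => (hfac K y).symm
    exact tendsto_nhds_unique h1 h3
  have heq : ps a = fun y => a 0 * E y := by
    have h1 : AnalyticOnNhd ℂ (ps a) Set.univ := fun y _ => ha.differentiable.analyticAt y
    have h2 : AnalyticOnNhd ℂ (fun y => a 0 * E y) Set.univ :=
      fun y _ => (hEd.const_mul (a 0)).analyticAt y
    have h3 : ps a =ᶠ[𝓝 0] fun y => a 0 * E y := by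
      filter_upwards [Metric.ball_mem_nhds (0 : ℂ) one_pos] with y hy using heq1 y hy
    exact h1.eq_of_eventuallyEq h2 h3
  intro R _
  have : (fun y => ps a y / a 0) = E := by
    funext y
    rw [heq]
    field_simp
  rw [this]
  exact hT R

end Pool.Agent.V11331.LA
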