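import Pool.Agent.V11331.LA.Struct

/-!
# Simplicity of the zeros at `z = 1` and reality of the zeros near `z = 1`
-/

namespace Pool.Agent.V11331.LA

open Filter Topology Finset

lemma one_sub_sum_le (f : ℕ → ℝ) (M : ℕ) (h0 : ∀ i, 0 ≤ f i) (h1 : ∀ i, f i ≤ 1) :
    1 - ∑ i ∈ range M, f i ≤ ∏ i ∈ range M, (1 - f i) ∧ 0 ≤ ∏ i ∈ range M, (1 - f i) ∧
      ∏ i ∈ range M, (1 - f i) ≤ 1 := by
  induction M with
  | zero => simp
  | succ M ih =>
    rw [Finset.sum_range_succ, Finset.prod_range_succ]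
    obtain ⟨i1, i2, i3⟩ := ih
    have := h0 M
    have := h1 M
    refine ⟨by nlinarith, mul_nonneg i2 (by linarith), by nlinarith⟩


/-- `F'(1, y_k) ≠ 0` -/
lemma deriv_ne_zero {q ρ : ℝ} (hq0 : 0 < q) (hq : q ≤ 1 / 4) (hρ0 : 0 < ρ) (hρ : ρ < 1)
    {a : ℕ → ℂ} (ha : Ent a) (h0 : a 0 ≠ 0)
    (h : ∀ y : ℂ, ‖y‖ ≤ 1 → Tendsto (fun K : ℕ => ∏ k ∈ range K,
      ((1 - ((ρ * q ^ (k + 1) : ℝ) : ℂ)) + ((ρ * q ^ (k + 1) : ℝ) : ℂ) * y)) atTop
      (𝓝 (ps a y))) (k : ℕ) :
    deriv (ps a) (-(1 - ((ρ * q ^ (k + 1) : ℝ) : ℂ)) / ((ρ * q ^ (k + 1) : ℝ) : ℂ)) ≠ 0 := by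
  set b : ℕ → ℝ := fun k => ρ * q ^ (k + 1) with hb
  have hbpos : ∀ k, 0 < b k := fun k => by simp only [hb]; positivity
  have hbs : Summable b := by
    have := (summable_geometric_of_lt_one hq0.le (show q < 1 by linarith)).mul_left (ρ * q)
    apply this.congr
    intro k
    simp only [hb]
    ring
  have hb1 : ∀ k, b k ≤ q := by
    intro k
    simp only [hb]
    have : q ^ (k + 1) ≤ q := by
      calc q ^ (k + 1) ≤ q ^ 1 := pow_le_pow_of_le_one hq0.le (by linarith) (by omega)
        _ = q := pow_one q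
    have h2 : 0 ≤ q ^ (k + 1) := by positivity
    nlinarith
  obtain ⟨hc, hu, hT⟩ := extension (c := fun k => 1 - (b k : ℂ)) hbs (fun k => (hbpos k).le) ha h0 h
  -- the real sequence u
  set u : ℕ → ℝ := fun k => b k / (1 - b k) with hudef
  have hden : ∀ k, 0 < 1 - b k := fun k => by have := hb1 k; linarith
  have hupos : ∀ k, 0 < u k := fun k => div_pos (hbpos k) (hden k)
  have huc : ∀ k, (b k : ℂ) / (1 - (b k : ℂ)) = (u k : ℂ) := by
    intro k; simp only [hudef]; push_cast; rfl
  simp only [huc] at hT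
  set y0 : ℂ := -(1 - (b k : ℂ)) / (b k : ℂ) with hy0
  have hy0' : y0 = ((-(1 / u k) : ℝ) : ℂ) := by
    rw [hy0]
    simp only [hudef]
    push_cast
    rw [one_div, inv_div, neg_div]
  -- ratios
  have hdecr : ∀ j i, u (j + i + 1) ≤ q ^ (i + 1) * u j := by
    intro j i
    simp only [hudef]
    rw [← mul_div_assoc, div_le_div_iff₀ (hden _) (hden _)]
    have e1 : b (j + i + 1) = q ^ (i + 1) * b j := by
      simp only [hb]; ring
    have e2 : b (j + i + 1) ≤ b j := by
      rw [e1]
      have : q ^ (i + 1) ≤ 1 := pow_le_one₀ hq0.le (by linarith)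
      have := hbpos j
      nlinarith
    have e3 := hbpos (j + i + 1)
    rw [← e1]
    nlinarith
  -- lower bound for the derivative of the partial products
  have hlow : ∀ M : ℕ, 1 / 2 * u k ≤ ‖deriv (fun y : ℂ => ∏ j ∈ range (k + 1 + M), (1 + (u j : ℂ) * y)) y0‖ := by
    intro M
    have e1 : (fun y : ℂ => ∏ j ∈ range (k + 1 + M), (1 + (u j : ℂ) * y)) =
        fun y => (1 + (u k : ℂ) * y) * ((∏ j ∈ range k, (1 + (u j : ℂ) * y)) *
          ∏ i ∈ range M, (1 + (u (k + 1 + i) : ℂ) * y)) := by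
      funext y
      rw [Finset.prod_range_add, Finset.prod_range_succ]
      ring
    set A : ℂ → ℂ := fun y => ((∏ j ∈ range k, (1 + (u j : ℂ) * y)) *
          ∏ i ∈ range M, (1 + (u (k + 1 + i) : ℂ) * y)) with hA
    have hAd : DifferentiableAt ℂ A y0 := by
      apply DifferentiableAt.mul
      · apply DifferentiableAt.fun_finsetProd
        intro j _
        exact (differentiableAt_id.const_mul _).const_add 1
      · apply DifferentiableAt.fun_finsetProd
        intro j _
        exact (differentiableAt_id.const_mul _).const_add 1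
    have hlin : HasDerivAt (fun y : ℂ => 1 + (u k : ℂ) * y) (u k : ℂ) y0 := by
      have := ((hasDerivAt_id y0).const_mul (u k : ℂ)).const_add 1
      simpa using this
    have hz : 1 + (u k : ℂ) * y0 = 0 := by
      rw [hy0']
      have : (u k : ℂ) ≠ 0 := by exact_mod_cast (hupos k).ne'
      push_cast
      field_simp
      ring
    have hd : HasDerivAt (fun y => (1 + (u k : ℂ) * y) * A y)
        ((u k : ℂ) * A y0 + (1 + (u k : ℂ) * y0) * deriv A y0) y0 := hlin.mul hAd.hasDerivAt
    rw [e1, hd.deriv, hz, zero_mul, add_zero, norm_mul, Complex.norm_real, Real.norm_eq_abs,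
      abs_of_pos (hupos k), mul_comm]
    apply mul_le_mul_of_nonneg_left _ (hupos k).le
    rw [hA]
    simp only
    rw [norm_mul, norm_prod, norm_prod]
    have f1 : 1 ≤ ∏ j ∈ range k, ‖1 + (u j : ℂ) * y0‖ := by
      have : ∏ j ∈ range k, (1 : ℝ) ≤ ∏ j ∈ range k, ‖1 + (u j : ℂ) * y0‖ := by
        apply Finset.prod_le_prod
        · intro _ _; norm_num
        · intro j hj
          rw [Finset.mem_range] at hj
          rw [hy0']
          have e2 : (1 + (u j : ℂ) * ((-(1 / u k) : ℝ) : ℂ)) = ((1 - u j / u k : ℝ) : ℂ) := by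
            push_cast; ring
          rw [e2, Complex.norm_real, Real.norm_eq_abs]
          have e3 := hdecr j (k - j - 1)
          have e4 : j + (k - j - 1) + 1 = k := by omega
          rw [e4] at e3
          have e5 : q ^ (k - j - 1 + 1) ≤ 1 / 4 := by
            calc q ^ (k - j - 1 + 1) ≤ q ^ 1 :=
                  pow_le_pow_of_le_one hq0.le (by linarith) (by omega)
              _ ≤ 1 / 4 := by rw [pow_one]; exact hq
          have e6 : u k ≤ 1 / 4 * u j := e3.trans (mul_le_mul_of_nonneg_right e5 (hupos j).le)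
          have e7 : 4 ≤ u j / u k := by
            rw [le_div_iff₀ (hupos k)]; linarith
          rw [le_abs]; right; linarith
      simpa using this
    have f2 : 1 / 2 ≤ ∏ i ∈ range M, ‖1 + (u (k + 1 + i) : ℂ) * y0‖ := by
      have g1 : ∀ i ∈ range M, 1 - q ^ (i + 1) ≤ ‖1 + (u (k + 1 + i) : ℂ) * y0‖ := by
        intro i _
        rw [hy0']
        have e2 : (1 + (u (k + 1 + i) : ℂ) * ((-(1 / u k) : ℝ) : ℂ)) =
            ((1 - u (k + 1 + i) / u k : ℝ) : ℂ) := by
          push_cast; ring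
        rw [e2, Complex.norm_real, Real.norm_eq_abs]
        have e3 := hdecr k i
        have e4 : k + i + 1 = k + 1 + i := by omega
        rw [e4] at e3
        have e5 : u (k + 1 + i) / u k ≤ q ^ (i + 1) := by
          rw [div_le_iff₀ (hupos k)]; exact e3
        rw [le_abs]; left; linarith
      have g2 := one_sub_sum_le (fun i => q ^ (i + 1)) M (fun i => by positivity)
        (fun i => pow_le_one₀ hq0.le (by linarith))
      have g3 : ∏ i ∈ range M, (1 - q ^ (i + 1)) ≤ ∏ i ∈ range M, ‖1 + (u (k + 1 + i) : ℂ) * y0‖ := by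
        apply Finset.prod_le_prod _ g1
        intro i _
        have : q ^ (i + 1) ≤ 1 := pow_le_one₀ hq0.le (by linarith)
        linarith
      have g4 : ∑ i ∈ range M, q ^ (i + 1) ≤ 1 / 2 := by
        have hs := (summable_geometric_of_lt_one hq0.le (show q < 1 by linarith))
        have : ∑ i ∈ range M, q ^ (i + 1) = q * ∑ i ∈ range M, q ^ i := by
          rw [Finset.mul_sum]
          apply Finset.sum_congr rfl
          intro i _; ring
        rw [this]
        have h2 : ∑ i ∈ range M, q ^ i ≤ (1 - q)⁻¹ := by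
          rw [← tsum_geometric_of_lt_one hq0.le (show q < 1 by linarith)]
          exact hs.sum_le_tsum _ (fun _ _ => by positivity)
        have h3 : (1 - q)⁻¹ ≤ 2 := by
          rw [inv_le_comm₀ (by linarith) (by norm_num)]; linarith
        have h4 : 0 ≤ ∑ i ∈ range M, q ^ i := Finset.sum_nonneg fun _ _ => by positivity
        nlinarith
      linarith [g2.1]
    nlinarith
  -- pass to the limit
  have hR : (1 : ℝ) < ‖y0‖ + 2 := by linarith [norm_nonneg y0]
  have hmem : y0 ∈ Metric.ball (0 : ℂ) (‖y0‖ + 2) := by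
    rw [Metric.mem_ball, dist_zero_right]; linarith
  have h3 := ((hT _ hR).deriv (by
      filter_upwards with K
      apply DifferentiableOn.fun_finsetProd
      intro k _
      exact ((differentiable_id.const_mul _).const_add 1).differentiableOn)
      Metric.isOpen_ball).tendsto_at hmem
  have h4 := ((h3.comp (tendsto_add_atTop_nat (k + 1))).norm)
  have h5 : 1 / 2 * u k ≤ ‖deriv (fun y => ps a y / a 0) y0‖ := by
    apply ge_of_tendsto' h4
    intro M
    simp only [Function.comp_apply]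
    rw [add_comm M (k + 1)]
    exact hlow M
  intro h6
  rw [deriv_div_const, h6, zero_div, norm_zero] at h5
  have := hupos k
  linarith

/-- zeros of the functions `ps (a z)` near a simple real zero of `ps g` are real -/
lemma real_zero {g : ℕ → ℝ} (hg : Ent fun l => (g l : ℂ)) (hg0 : ∀ l, 0 ≤ g l)
    {α : ℝ → ℕ → ℝ} {F : Filter ℝ} (hαg : ∀ᶠ z in F, ∀ l, |α z l| ≤ g l)
    (hαt : ∀ l, Tendsto (fun z => α z l) F (𝓝 (g l)))
    {φ : ℝ → ℂ} {y0 : ℝ} (hφ : Tendsto φ F (𝓝 (y0 : ℂ)))
    (hz : ∀ᶠ z in F, ps (fun l => (α z l : ℂ)) (φ z) = 0)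
    (hd : deriv (ps fun l => (g l : ℂ)) (y0 : ℂ) ≠ 0) :
    ∀ᶠ z in F, (starRingEnd ℂ) (φ z) = φ z := by
  set D : ℝ → ℂ := fun z => ∑' l : ℕ, (α z l : ℂ) *
    ∑ i ∈ range l, φ z ^ i * (starRingEnd ℂ) (φ z) ^ (l - 1 - i) with hD
  have hR : 0 ≤ |y0| + 1 := by positivity
  have hev : ∀ᶠ z in F, ‖φ z‖ ≤ |y0| + 1 := by
    have := hφ.norm
    rw [Complex.norm_real, Real.norm_eq_abs] at this
    exact (this.eventually (gt_mem_nhds (show |y0| < |y0| + 1 by linarith))).mono fun _ h => h.le
  have hφc : Tendsto (fun z => (starRingEnd ℂ) (φ z)) F (𝓝 (y0 : ℂ)) := by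
    have := (Complex.continuous_conj.tendsto _).comp hφ
    rw [Complex.conj_ofReal] at this
    exact this
  have hDt : Tendsto D F (𝓝 (∑' l : ℕ, (g l : ℂ) * ((l : ℂ) * (y0 : ℂ) ^ (l - 1)))) := by
    apply tendsto_tsum_of_dominated_convergence (summable_deriv_bound hg hR)
    · intro l
      apply Tendsto.mul
      · exact (Complex.continuous_ofReal.tendsto _).comp (hαt l)
      · have e1 : (l : ℂ) * (y0 : ℂ) ^ (l - 1) =
            ∑ i ∈ range l, (y0 : ℂ) ^ i * (y0 : ℂ) ^ (l - 1 - i) := by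
          have : ∀ i ∈ range l, (y0 : ℂ) ^ i * (y0 : ℂ) ^ (l - 1 - i) = (y0 : ℂ) ^ (l - 1) := by
            intro i hi
            rw [Finset.mem_range] at hi
            rw [← pow_add]; congr 1; omega
          rw [Finset.sum_congr rfl this, Finset.sum_const, Finset.card_range, nsmul_eq_mul]
        rw [e1]
        apply tendsto_finsetSum
        intro i _
        exact (hφ.pow i).mul (hφc.pow _)
    · filter_upwards [hαg, hev] with z h1 h2 l
      rw [norm_mul, Complex.norm_real, Complex.norm_real, Real.norm_eq_abs, Real.norm_eq_abs,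
        abs_of_nonneg (hg0 l)]
      apply mul_le_mul (h1 l) _ (norm_nonneg _) (hg0 l)
      calc ‖∑ i ∈ range l, φ z ^ i * (starRingEnd ℂ) (φ z) ^ (l - 1 - i)‖
          ≤ ∑ i ∈ range l, ‖φ z ^ i * (starRingEnd ℂ) (φ z) ^ (l - 1 - i)‖ := norm_sum_le _ _
        _ ≤ ∑ i ∈ range l, (|y0| + 1) ^ (l - 1) := by
          apply Finset.sum_le_sum
          intro i hi
          rw [Finset.mem_range] at hi
          rw [norm_mul, norm_pow, norm_pow, RCLike.norm_conj, ← pow_add]
          have : i + (l - 1 - i) = l - 1 := by omega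
          rw [this]
          exact pow_le_pow_left₀ (norm_nonneg _) h2 _
        _ = l * (|y0| + 1) ^ (l - 1) := by
          rw [Finset.sum_const, Finset.card_range, nsmul_eq_mul]
  have hne : (∑' l : ℕ, (g l : ℂ) * ((l : ℂ) * (y0 : ℂ) ^ (l - 1))) ≠ 0 := by
    rw [← (hg.hasDerivAt (y0 : ℂ)).deriv]; exact hd
  have hDne := hDt.eventually_ne hne
  filter_upwards [hDne, hαg, hz] with z h1 h2 h3
  have hEnt : Ent fun l => (α z l : ℂ) := by
    intro r hr
    apply Summable.of_nonneg_of_le (fun l => by positivity) _ (hg r hr)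
    intro l
    apply mul_le_mul_of_nonneg_right _ (by positivity)
    rw [Complex.norm_real, Complex.norm_real, Real.norm_eq_abs, Real.norm_eq_abs,
      abs_of_nonneg (hg0 l)]
    exact h2 l
  have h4 : ps (fun l => (α z l : ℂ)) ((starRingEnd ℂ) (φ z)) = 0 := by
    have : ps (fun l => (α z l : ℂ)) ((starRingEnd ℂ) (φ z)) =
        (starRingEnd ℂ) (ps (fun l => (α z l : ℂ)) (φ z)) := by
      unfold ps
      rw [Complex.conj_tsum]
      apply tsum_congr
      intro l
      rw [map_mul, map_pow, Complex.conj_ofReal]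
    rw [this, h3, map_zero]
  have h5 : D z * (φ z - (starRingEnd ℂ) (φ z)) = 0 := by
    have e1 : D z * (φ z - (starRingEnd ℂ) (φ z)) = ∑' l : ℕ, ((α z l : ℂ) * φ z ^ l -
        (α z l : ℂ) * (starRingEnd ℂ) (φ z) ^ l) := by
      rw [hD, ← tsum_mul_right]
      apply tsum_congr
      intro l
      rw [mul_assoc, Commute.geom_sum₂_mul (Commute.all _ _), mul_sub]
    rw [e1, (hEnt.summable _).tsum_sub (hEnt.summable _)]
    unfold ps at h3 h4
    rw [h3, h4, sub_zero]
  rcases mul_eq_zero.1 h5 with h6 | h6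
  · exact absurd h6 h1
  · exact (sub_eq_zero.1 h6).symm

end Pool.Agent.V11331.LA
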