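import Pool.Agent.V11331.LA.Num3
import Pool.Agent.V11331.LA.Near
import Pool.Agent.V11331.LA.Beta

/-!
# The product form fails for `q = 10⁻⁴`, `ρ = 1 - q³ / 2`
-/

namespace Pool.Agent.V11331.LA

open Filter Topology Finset

variable {P : ℕ × ℕ → ℝ}

lemma summable_b_pow (h : IsStationary rho0 q0 P) (R : ℝ) (hR : 0 ≤ R) :
    Summable fun k => P (0, k) * R ^ k := by
  apply summable_of_ratio_norm_eventually_le (r := 1 / 2) (by norm_num)
  have h1 : Tendsto (fun k : ℕ => (4000000000002 * R) * (1 / 10000 : ℝ) ^ (k + 1)) atTop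
      (𝓝 ((4000000000002 * R) * 0)) := by
    apply Tendsto.const_mul
    exact (tendsto_pow_atTop_nhds_zero_of_lt_one (by norm_num) (by norm_num)).comp
      (tendsto_add_atTop_nat 1)
  rw [mul_zero] at h1
  filter_upwards [h1.eventually (gt_mem_nhds (show (0 : ℝ) < 1 / 2 by norm_num))] with k hk
  have h2 := b_rec' h k
  have h3 := h.nonneg (0, k)
  have h4 := h.nonneg (0, k + 1)
  have h5 : (1 / 10000 : ℝ) ^ (k + 1) ≤ 1 / 2 := by
    calc (1 / 10000 : ℝ) ^ (k + 1) ≤ (1 / 10000) ^ 1 :=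
          pow_le_pow_of_le_one (by norm_num) (by norm_num) (by omega)
      _ ≤ 1 / 2 := by norm_num
  have h6 : P (0, k + 1) ≤ (4000000000002 * (1 / 10000 : ℝ) ^ (k + 1)) * P (0, k) := by
    have e1 : (1 / 10000 : ℝ) ^ (k + 1) * P (0, k + 1) ≤ 1 / 2 * P (0, k + 1) :=
      mul_le_mul_of_nonneg_right h5 h4
    have e2 : (1 / 10000 : ℝ) ^ (k + 1) * (P (0, k + 1) + 2000000000001 * P (0, k)) =
      (1 / 10000 : ℝ) ^ (k + 1) * P (0, k + 1) +
        1 / 2 * ((4000000000002 * (1 / 10000 : ℝ) ^ (k + 1)) * P (0, k)) := by ring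
    rw [e2] at h2
    linarith
  rw [Real.norm_eq_abs, Real.norm_eq_abs, abs_of_nonneg (by positivity), abs_of_nonneg (by positivity)]
  have hRk : 0 ≤ R ^ (k + 1) := by positivity
  calc P (0, k + 1) * R ^ (k + 1)
      ≤ (4000000000002 * (1 / 10000 : ℝ) ^ (k + 1)) * P (0, k) * R ^ (k + 1) :=
        mul_le_mul_of_nonneg_right h6 hRk
    _ = ((4000000000002 * R) * (1 / 10000 : ℝ) ^ (k + 1)) * (P (0, k) * R ^ k) := by ring
    _ ≤ 1 / 2 * (P (0, k) * R ^ k) := mul_le_mul_of_nonneg_right hk.le (by positivity)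

lemma summable_total_pow (h : IsStationary rho0 q0 P) (R : ℝ) (hR : 0 ≤ R) :
    Summable fun s : ℕ × ℕ => P s * R ^ (s.1 + s.2) := by
  rw [← (Finset.HasAntidiagonal.sigmaAntidiagonalEquivProd (A := ℕ)).summable_iff]
  refine (summable_sigma_of_nonneg (fun x => ?_)).2 ⟨fun N => (hasSum_fintype _).summable, ?_⟩
  · exact mul_nonneg (h.nonneg _) (by positivity)
  have e : ∀ N : ℕ, (∑' y : antidiagonal N, ((fun s : ℕ × ℕ => P s * R ^ (s.1 + s.2)) ∘
      (Finset.HasAntidiagonal.sigmaAntidiagonalEquivProd (A := ℕ))) ⟨N, y⟩) =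
      (∑ i ∈ range (N + 1), P (i, N - i)) * R ^ N := by
    intro N
    rw [tsum_fintype]
    have h3 : (∑ s : antidiagonal N, P s) = ∑ i ∈ range (N + 1), P (i, N - i) := by
      rw [Finset.sum_coe_sort (antidiagonal N) P,
        Finset.Nat.sum_antidiagonal_eq_sum_range_succ_mk]
    rw [← h3, Finset.sum_mul]
    apply Finset.sum_congr rfl
    intro s _
    have := s.2
    rw [Finset.HasAntidiagonal.mem_antidiagonal] at this
    show P s * R ^ (s.1.1 + s.1.2) = _
    rw [this]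
  simp only [e]
  rw [← summable_nat_add_iff 1]
  have e2 : ∀ N : ℕ, (∑ i ∈ range (N + 1 + 1), P (i, N + 1 - i)) * R ^ (N + 1) =
      P (0, N + 1) * R ^ (N + 1) + 1999999999999 * R * (P (0, N) * R ^ N) := by
    intro N
    rw [level_succ, lvl_eq h]
    ring
  simp only [e2]
  exact ((summable_nat_add_iff 1).2 (summable_b_pow h R hR)).add
    ((summable_b_pow h R hR).mul_left _)

/-- `g_l = ∑_n P_{n,l}` -/
noncomputable def gg (P : ℕ × ℕ → ℝ) (l : ℕ) : ℝ := rowR P l 1

lemma gg_eq (P : ℕ × ℕ → ℝ) (l : ℕ) : gg P l = ∑' n, P (n, l) := by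
  unfold gg rowR
  simp

lemma gg_nonneg (h : IsStationary rho0 q0 P) (l : ℕ) : 0 ≤ gg P l := by
  rw [gg_eq]
  exact tsum_nonneg fun _ => h.nonneg _

lemma ent_gg (h : IsStationary rho0 q0 P) : Ent fun l => (gg P l : ℂ) := by
  intro r hr
  have h1 := summable_total_pow h (max r 1) (by positivity)
  have h2 : Summable fun s : ℕ × ℕ => P s * r ^ s.2 := by
    apply Summable.of_nonneg_of_le (fun s => mul_nonneg (h.nonneg _) (by positivity)) _ h1
    intro s
    apply mul_le_mul_of_nonneg_left _ (h.nonneg _)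
    calc r ^ s.2 ≤ (max r 1) ^ s.2 := pow_le_pow_left₀ hr (le_max_left _ _) _
      _ ≤ (max r 1) ^ (s.1 + s.2) := pow_le_pow_right₀ (le_max_right _ _) (by omega)
  have h3 := h2.prod_symm.prod
  apply h3.congr
  intro l
  rw [Complex.norm_real, Real.norm_eq_abs, abs_of_nonneg (gg_nonneg h l), gg_eq, ← tsum_mul_right]
  rfl

lemma rowR_abs_le (h : IsStationary rho0 q0 P) (l : ℕ) {z : ℝ} (hz : |z| ≤ 1) :
    |rowR P l z| ≤ gg P l := by
  rw [gg_eq]
  have h1 : ∀ n, ‖P (n, l) * z ^ n‖ ≤ P (n, l) := by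
    intro n
    rw [norm_mul, norm_pow, Real.norm_eq_abs, Real.norm_eq_abs, abs_of_nonneg (h.nonneg _)]
    exact mul_le_of_le_one_right (h.nonneg _) (pow_le_one₀ (abs_nonneg _) hz)
  have h2 := tsum_of_norm_bounded (summable_row h l).hasSum h1
  exact h2

lemma rowR_tendsto (h : IsStationary rho0 q0 P) (l : ℕ) :
    Tendsto (fun z => rowR P l z) (𝓝[<] 1) (𝓝 (gg P l)) := by
  unfold gg rowR
  apply tendsto_tsum_of_dominated_convergence (summable_row h l)
  · intro n
    apply Tendsto.const_mul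
    apply Tendsto.mono_left _ nhdsWithin_le_nhds
    exact (continuous_pow n).tendsto 1
  · have hI : ∀ᶠ x : ℝ in 𝓝[<] (1 : ℝ), x ∈ Set.Ioo (0 : ℝ) 1 := Ioo_mem_nhdsLT (by norm_num)
    filter_upwards [hI] with z hz n
    rw [norm_mul, norm_pow, Real.norm_eq_abs, Real.norm_eq_abs, abs_of_nonneg (h.nonneg _)]
    apply mul_le_of_le_one_right (h.nonneg _) (pow_le_one₀ (abs_nonneg _) _)
    rw [abs_le]; constructor <;> linarith [hz.1, hz.2]

lemma pgf_eq (h : IsStationary rho0 q0 P) {z : ℝ} (hz : |z| ≤ 1) {y : ℂ} (hy : ‖y‖ ≤ 1) :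
    pgf P (z : ℂ) y = ps (fun l => (rowR P l z : ℂ)) y := by
  have hs : Summable fun s : ℕ × ℕ => (P s : ℂ) * (z : ℂ) ^ s.1 * y ^ s.2 := by
    apply Summable.of_norm_bounded h.mass.summable
    intro s
    rw [norm_mul, norm_mul, norm_pow, norm_pow, Complex.norm_real, Complex.norm_real,
      Real.norm_eq_abs, Real.norm_eq_abs, abs_of_nonneg (h.nonneg _), mul_assoc]
    apply mul_le_of_le_one_right (h.nonneg _)
    exact mul_le_one₀ (pow_le_one₀ (abs_nonneg _) hz) (by positivity)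
      (pow_le_one₀ (norm_nonneg _) hy)
  unfold pgf ps
  rw [← (Equiv.prodComm ℕ ℕ).tsum_eq]
  refine Eq.trans hs.prod_symm.tsum_prod ?_
  apply tsum_congr
  intro l
  simp only [Prod.swap_prod_mk]
  rw [tsum_mul_right]
  congr 1
  unfold rowR
  rw [Complex.ofReal_tsum]
  apply tsum_congr
  intro n
  push_cast
  rfl

theorem not_productForm (h : IsStationary rho0 q0 P) : ¬ ProductForm rho0 q0 P := by
  rintro ⟨β, hβ⟩
  -- the limits of the inner series
  have hS : ∃ S : ℂ → ℕ → ℂ, ∀ z : ℂ, ‖z‖ ≤ 1 →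
      (∀ k, Tendsto (fun J : ℕ => ∑ j ∈ Icc 1 J, β k j * (z ^ j - 1)) atTop (𝓝 (S z k))) ∧
      ∀ y : ℂ, ‖y‖ ≤ 1 → Tendsto (fun K : ℕ => ∏ k ∈ range K,
        (1 + (rho0 : ℂ) * (q0 : ℂ) ^ (k + 1) * (y - z) + (q0 : ℂ) ^ k * S z k)) atTop
          (𝓝 (pgf P z y)) := by
    have h0 : ∀ z : ℂ, ∃ S : ℕ → ℂ, ‖z‖ ≤ 1 →
      (∀ k, Tendsto (fun J : ℕ => ∑ j ∈ Icc 1 J, β k j * (z ^ j - 1)) atTop (𝓝 (S k))) ∧
      ∀ y : ℂ, ‖y‖ ≤ 1 → Tendsto (fun K : ℕ => ∏ k ∈ range K,
        (1 + (rho0 : ℂ) * (q0 : ℂ) ^ (k + 1) * (y - z) + (q0 : ℂ) ^ k * S k)) atTop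
          (𝓝 (pgf P z y)) := by
      intro z
      by_cases hz : ‖z‖ ≤ 1
      · obtain ⟨S, hS1, hS2⟩ := hβ z 0 hz (by simp)
        refine ⟨S, fun _ => ⟨hS1, ?_⟩⟩
        intro y hy
        obtain ⟨S', hS1', hS2'⟩ := hβ z y hz hy
        have : S' = S := funext fun k => tendsto_nhds_unique (hS1' k) (hS1 k)
        rw [← this]
        exact hS2'
      · exact ⟨0, fun h' => absurd h' hz⟩
    choose S hS using h0
    exact ⟨S, hS⟩
  obtain ⟨S, hS⟩ := hS
  have hq0 : (0 : ℝ) < q0 := by unfold q0; norm_num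
  have hq4 : q0 ≤ 1 / 4 := by unfold q0; norm_num
  have hρ0 : (0 : ℝ) < rho0 := by unfold rho0; norm_num
  have hρ1 : rho0 < 1 := by unfold rho0; norm_num
  set b : ℕ → ℝ := fun k => rho0 * q0 ^ (k + 1) with hb
  have hbpos : ∀ k, 0 < b k := fun k => by simp only [hb]; positivity
  have hbs : Summable b := by
    have := (summable_geometric_of_lt_one hq0.le (show q0 < 1 by linarith)).mul_left (rho0 * q0)
    apply this.congr
    intro k
    simp only [hb]
    ring
  set c : ℝ → ℕ → ℂ := fun z k => 1 - (b k : ℂ) * z + (q0 : ℂ) ^ k * S z k with hc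
  set α : ℝ → ℕ → ℝ := fun z l => rowR P l z with hα
  have hprod : ∀ z : ℝ, |z| ≤ 1 → ∀ y : ℂ, ‖y‖ ≤ 1 → Tendsto (fun K : ℕ => ∏ k ∈ range K,
      (c z k + b k * y)) atTop (𝓝 (ps (fun l => (α z l : ℂ)) y)) := by
    intro z hz y hy
    have hz' : ‖(z : ℂ)‖ ≤ 1 := by rw [Complex.norm_real, Real.norm_eq_abs]; exact hz
    have h1 := (hS z hz').2 y hy
    rw [pgf_eq h hz hy] at h1
    apply h1.congr
    intro K
    apply Finset.prod_congr rfl
    intro k _
    simp only [hc, hb]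
    push_cast
    ring
  have hEg := ent_gg h
  have hEnt : ∀ z : ℝ, |z| ≤ 1 → Ent fun l => (α z l : ℂ) := by
    intro z hz r hr
    apply Summable.of_nonneg_of_le (fun l => by positivity) _ (hEg r hr)
    intro l
    apply mul_le_mul_of_nonneg_right _ (by positivity)
    rw [Complex.norm_real, Complex.norm_real, Real.norm_eq_abs, Real.norm_eq_abs,
      abs_of_nonneg (gg_nonneg h l)]
    exact rowR_abs_le h l hz
  have hg0 : gg P 0 ≠ 0 := by
    rw [gg_eq]
    have h1 := (summable_row h 0).le_tsum 3 (fun _ _ => h.nonneg _)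
    have h2 := mass_low h
    intro h3
    rw [h3] at h1
    linarith
  have hSk : ∀ k, ∀ z : ℂ, ‖z‖ ≤ 1 →
      Tendsto (fun J : ℕ => ∑ j ∈ Icc 1 J, β k j * (z ^ j - 1)) atTop (𝓝 (S z k)) :=
    fun k z hz => (hS z hz).1 k
  have hI : ∀ᶠ x : ℝ in 𝓝[<] (1 : ℝ), x ∈ Set.Ioo (0 : ℝ) 1 := Ioo_mem_nhdsLT (by norm_num)
  -- simple zeros at z = 1
  have hd : ∀ k, deriv (ps fun l => (gg P l : ℂ)) (((-(1 - b k) / b k : ℝ)) : ℂ) ≠ 0 := by
    intro k
    have := deriv_ne_zero hq0 hq4 hρ0 hρ1 hEg (by exact_mod_cast hg0) (by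
      intro y hy
      have h1 := hprod 1 (by simp) y hy
      apply h1.congr
      intro K
      apply Finset.prod_congr rfl
      intro j _
      have hS1 : S ((1 : ℝ) : ℂ) j = 0 := by
        rw [Complex.ofReal_one]
        exact one_eq (S := fun z => S z j) (hSk j)
      simp only [hc, hS1, hb]
      push_cast
      ring) k
    push_cast
    push_cast at this
    convert this using 2
    simp only [hb]
    push_cast
    ring
  -- reality of the zeros near z = 1
  have hreal : ∀ k, ∀ᶠ x : ℝ in 𝓝[<] (1 : ℝ), (S (x : ℂ) k).im = 0 := by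
    intro k
    have hbk : (b k : ℂ) ≠ 0 := by exact_mod_cast (hbpos k).ne'
    have hlim : Tendsto (fun x : ℝ => -(c x k) / (b k : ℂ)) (𝓝[<] 1)
        (𝓝 (((-(1 - b k) / b k : ℝ)) : ℂ)) := by
      have h1 := lim_S (S := fun z => S z k) (hSk k)
      have h2 : Tendsto (fun x : ℝ => (x : ℂ)) (𝓝[<] (1 : ℝ)) (𝓝 ((1 : ℝ) : ℂ)) :=
        (Complex.continuous_ofReal.tendsto 1).mono_left nhdsWithin_le_nhds
      have h3 : Tendsto (fun x : ℝ => -(c x k) / (b k : ℂ)) (𝓝[<] 1)
          (𝓝 (-(1 - (b k : ℂ) * ((1 : ℝ) : ℂ) + (q0 : ℂ) ^ k * 0) / (b k : ℂ))) := by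
        simp only [hc]
        apply Tendsto.div_const
        apply Tendsto.neg
        apply Tendsto.add
        · exact tendsto_const_nhds.sub (h2.const_mul _)
        · exact h1.const_mul _
      convert h3 using 2
      push_cast
      ring
    have hz : ∀ᶠ x : ℝ in 𝓝[<] (1 : ℝ), ps (fun l => (α x l : ℂ)) (-(c x k) / (b k : ℂ)) = 0 := by
      have h0 : ∀ᶠ x : ℝ in 𝓝[<] (1 : ℝ), α x 0 ≠ 0 :=
        (rowR_tendsto h 0).eventually_ne hg0
      filter_upwards [hI, h0] with x hx hx0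
      have hx1 : |x| ≤ 1 := by rw [abs_le]; constructor <;> linarith [hx.1, hx.2]
      exact ext_zero hbs hbpos (hEnt x hx1) (by exact_mod_cast hx0) (hprod x hx1) k
    have := real_zero hEg (gg_nonneg h) (α := α) (F := 𝓝[<] (1 : ℝ)) (by
      filter_upwards [hI] with x hx l
      exact rowR_abs_le h l (by rw [abs_le]; constructor <;> linarith [hx.1, hx.2]))
      (fun l => rowR_tendsto h l) hlim hz (hd k)
    filter_upwards [this] with x hx
    have h1 : (starRingEnd ℂ) (c x k) = c x k := by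
      rw [map_div₀, Complex.conj_ofReal, map_neg, neg_div, neg_div, neg_inj] at hx
      exact (div_left_inj' hbk).1 hx
    have h2 : (c x k).im = 0 := Complex.conj_eq_iff_im.1 h1
    have h3 : (c x k).im = q0 ^ k * (S (x : ℂ) k).im := by
      simp only [hc]
      rw [← Complex.ofReal_pow, Complex.add_im, Complex.sub_im, Complex.im_ofReal_mul,
        Complex.im_ofReal_mul, Complex.ofReal_im, Complex.one_im]
      ring
    rw [h3] at h2
    have hqk : q0 ^ k ≠ 0 := by positivity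
    rcases mul_eq_zero.1 h2 with h4 | h4
    · exact absurd h4 hqk
    · exact h4
  -- conclusion
  obtain ⟨z, hz1, hz2, hz3, hz4⟩ := violation h
  have hzabs : |z| < 1 := by rw [abs_lt]; constructor <;> linarith
  have hSre : ∀ k, (S (z : ℂ) k).im = 0 := fun k =>
    real_all (S := fun z => S z k) (hSk k) (hreal k) hzabs
  have hfin := ext_newton (c := c z) (b := b) (a := fun l => (α z l : ℂ))
    (γ := fun k => 1 - b k * z + q0 ^ k * (S (z : ℂ) k).re) (α := α z) hbs hbpos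
    (by
      intro k
      have : S (z : ℂ) k = (((S (z : ℂ) k).re : ℝ) : ℂ) := by
        apply Complex.ext
        · simp
        · simp [hSre k]
      simp only [hc]
      rw [this]
      push_cast
      simp) (fun _ => rfl) (hEnt z hzabs.le) (by exact_mod_cast hz3.ne) (hprod z hzabs.le)
  simp only [hα] at hfin
  linarith

end Pool.Agent.V11331.LA
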