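import Mathlib

/-!
# Newton's inequality `p₂² ≥ (3/2) p₁ p₃` for real-rooted polynomials
-/

namespace Pool.Agent.V11331.LA

open Polynomial

lemma laguerre_zero {f : ℝ[X]} (hf : f.Splits) :
    2 * (f.coeff 0 * f.coeff 2) ≤ f.coeff 1 ^ 2 := by
  unfold Polynomial.Splits at hf
  induction hf using Submonoid.closure_induction with
  | mem x hx =>
    rcases hx with ⟨a, rfl⟩ | ⟨a, rfl⟩
    · simp [coeff_C]
    · simp [coeff_X, coeff_C]
  | one => simp [coeff_one]
  | mul x y _ _ hx hy =>
    have h0 : (x * y).coeff 0 = x.coeff 0 * y.coeff 0 := by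
      simp [mul_coeff_zero]
    have h1 : (x * y).coeff 1 = x.coeff 0 * y.coeff 1 + x.coeff 1 * y.coeff 0 := by
      rw [mul_coeff_one]
    have h2 : (x * y).coeff 2 =
        x.coeff 0 * y.coeff 2 + x.coeff 1 * y.coeff 1 + x.coeff 2 * y.coeff 0 := by
      rw [coeff_mul, Finset.Nat.sum_antidiagonal_eq_sum_range_succ (fun i j => x.coeff i * y.coeff j)]
      simp [Finset.sum_range_succ]
    rw [h0, h1, h2]
    nlinarith [mul_nonneg (sq_nonneg (x.coeff 0)) (sub_nonneg.2 hy),
      mul_nonneg (sq_nonneg (y.coeff 0)) (sub_nonneg.2 hx)]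

lemma splits_derivative {f : ℝ[X]} (hf : f.Splits) : (derivative f).Splits := by
  rw [splits_iff_card_roots] at hf ⊢
  apply le_antisymm (card_roots' _)
  have h1 := card_roots_le_derivative f
  have h2 := natDegree_derivative_le f
  rcases Nat.eq_zero_or_pos f.natDegree with h | h
  · rw [h] at h2
    omega
  · omega

lemma newton_two {f : ℝ[X]} (hf : f.Splits) :
    3 * (f.coeff 1 * f.coeff 3) ≤ 2 * f.coeff 2 ^ 2 := by
  have h := laguerre_zero (splits_derivative hf)
  simp only [coeff_derivative] at h
  norm_num at h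
  nlinarith

/-- the product of finitely many real linear factors splits -/
lemma splits_prod_linear (c b : ℕ → ℝ) (K : ℕ) :
    (∏ k ∈ Finset.range K, (C (c k) + C (b k) * X)).Splits := by
  apply Splits.prod
  intro k _
  apply Splits.of_natDegree_le_one
  apply (natDegree_add_le _ _).trans
  simp only [natDegree_C, max_le_iff, Nat.zero_le, true_and]
  exact (natDegree_C_mul_le _ _).trans natDegree_X_le

end Pool.Agent.V11331.LA
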