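import Pool.Agent.V11331.LA.Bal

/-!
# Enclosures for the stationary distribution, `q = 10⁻⁴`, `ρ = 1 - q³ / 2`
-/

namespace Pool.Agent.V11331.LA

open Filter Topology Finset

section general

variable {ρ q : ℝ} {P : ℕ × ℕ → ℝ}

lemma hasSum_levels (h : IsStationary ρ q P) :
    HasSum (fun N => ∑ i ∈ range (N + 1), P (i, N - i)) 1 := by
  have h1 := (Finset.HasAntidiagonal.sigmaAntidiagonalEquivProd (A := ℕ)).hasSum_iff.2 h.mass
  have h2 := h1.sigma (g := fun N => ∑ s : antidiagonal N, P s)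
    (fun N => hasSum_fintype _)
  have h3 : (fun N => ∑ s : antidiagonal N, P s) =
      fun N => ∑ i ∈ range (N + 1), P (i, N - i) := by
    funext N
    rw [Finset.sum_coe_sort (antidiagonal N) P,
      Finset.Nat.sum_antidiagonal_eq_sum_range_succ_mk]
  rw [h3] at h2
  exact h2

lemma lvl_nonneg (h : IsStationary ρ q P) (k : ℕ) : 0 ≤ lvl P k :=
  Finset.sum_nonneg fun _ _ => h.nonneg _

lemma le_lvl (h : IsStationary ρ q P) (n l : ℕ) : P (n + 1, l) ≤ lvl P (n + l) := by
  unfold lvl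
  have := Finset.single_le_sum (f := fun j => P (j + 1, n + l - j)) (s := range (n + l + 1))
    (fun j _ => h.nonneg _) (show n ∈ range (n + l + 1) by simp only [Finset.mem_range]; omega)
  simpa using this

lemma level_succ (P : ℕ × ℕ → ℝ) (k : ℕ) :
    ∑ i ∈ range (k + 1 + 1), P (i, k + 1 - i) = P (0, k + 1) + lvl P k := by
  rw [Finset.sum_range_succ']
  unfold lvl
  rw [add_comm]
  congr 1
  apply Finset.sum_congr rfl
  intro i hi
  congr 2
  simp

lemma summable_b (h : IsStationary ρ q P) : Summable fun k => P (0, k) :=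
  h.mass.summable.comp_injective (fun a b hab => by simpa using hab)

lemma summable_row (h : IsStationary ρ q P) (l : ℕ) : Summable fun n => P (n, l) :=
  h.mass.summable.comp_injective (fun a b hab => by simpa using hab)

lemma b_rec (h : IsStationary ρ q P) (hρ : ρ < 1) (hρ0 : 0 ≤ ρ) (hq : 0 ≤ q) (k : ℕ) :
    P (0, k + 1) ≤ q ^ (k + 1) * (P (0, k + 1) + (1 + 1 / (1 - ρ)) * P (0, k)) := by
  have h1 := balance h 0 (k + 1)
  simp only [Finset.sum_range_succ, Finset.sum_range_zero, zero_add, Nat.sub_self,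
    Nat.zero_sub, add_zero, Nat.choose_zero_right, Nat.cast_one, pow_zero, one_mul, pre,
    Nat.succ_ne_zero, if_false, Nat.add_sub_cancel] at h1
  have hD : 0 < 1 - ρ := by linarith
  have c0 := cut h k
  have c1 := cut h (k + 1)
  have l0 : P (1, k) ≤ lvl P k := by simpa using le_lvl h 0 k
  have l1 : P (1, k + 1) ≤ lvl P (k + 1) := by simpa using le_lvl h 0 (k + 1)
  have hb := h.nonneg (0, k)
  have hl : lvl P k ≤ P (0, k) / (1 - ρ) := by
    rw [le_div_iff₀ hD]
    nlinarith
  have hl' : ρ * P (1, k) ≤ P (0, k) / (1 - ρ) := by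
    have : 0 ≤ P (1, k) := h.nonneg _
    nlinarith
  have hD1 : (1 - ρ) * P (1, k + 1) ≤ ρ * P (0, k + 1) := by
    rw [← c1]
    exact mul_le_mul_of_nonneg_left l1 hD.le
  have hqk : 0 ≤ q ^ (k + 1) := pow_nonneg hq _
  rw [h1, ← mul_add]
  apply mul_le_mul_of_nonneg_left _ hqk
  have e1 : (1 + 1 / (1 - ρ)) * P (0, k) = P (0, k) + P (0, k) / (1 - ρ) := by ring
  rw [e1]
  have : ρ * P (0, k) ≤ P (0, k) := by nlinarith
  nlinarith

end general

section special

variable {P : ℕ × ℕ → ℝ}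

/-- the value of `ρ` -/
noncomputable def rho0 : ℝ := 1 - 1 / 2000000000000
/-- the value of `q` -/
noncomputable def q0 : ℝ := 1 / 10000

lemma b_rec' (h : IsStationary rho0 q0 P) (k : ℕ) :
    P (0, k + 1) ≤ (1 / 10000) ^ (k + 1) * (P (0, k + 1) + 2000000000001 * P (0, k)) := by
  have := b_rec h (by unfold rho0; norm_num) (by unfold rho0; norm_num) (by unfold q0; norm_num) k
  unfold rho0 q0 at this
  norm_num at this ⊢
  exact this

lemma b_geom (h : IsStationary rho0 q0 P) (k : ℕ) (hk : 3 ≤ k) :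
    P (0, k + 1) ≤ 3 / 10000 * P (0, k) := by
  have h1 := b_rec' h k
  have h2 : (1 / 10000 : ℝ) ^ (k + 1) ≤ (1 / 10000) ^ 4 :=
    pow_le_pow_of_le_one (by norm_num) (by norm_num) (by omega)
  have h3 := h.nonneg (0, k)
  have h4 := h.nonneg (0, k + 1)
  have h5 : P (0, k + 1) ≤ (1 / 10000) ^ 4 * (P (0, k + 1) + 2000000000001 * P (0, k)) :=
    h1.trans (mul_le_mul_of_nonneg_right h2 (by linarith))
  norm_num at h5
  linarith

lemma lvl_eq (h : IsStationary rho0 q0 P) (k : ℕ) :
    lvl P k = 1999999999999 * P (0, k) := by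
  have := cut h k
  unfold rho0 at this
  linarith

lemma b4 (h : IsStationary rho0 q0 P) : P (0, 4) ≤ 3 / 10000 * P (0, 3) := b_geom h 3 le_rfl

lemma b5 (h : IsStationary rho0 q0 P) : P (0, 5) ≤ 9 / 10 ^ 12 * P (0, 3) := by
  have h1 := b_rec' h 4
  have h2 := b4 h
  have h3 := h.nonneg (0, 3)
  have h4 := h.nonneg (0, 4)
  norm_num at h1 ⊢
  linarith

lemma b6 (h : IsStationary rho0 q0 P) : P (0, 6) ≤ 27 / 10 ^ 24 * P (0, 3) := by
  have h1 := b_rec' h 5
  have h2 := b5 h
  have h3 := h.nonneg (0, 3)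
  have h4 := h.nonneg (0, 5)
  norm_num at h1 h2 ⊢
  linarith

lemma b_tail (h : IsStationary rho0 q0 P) (n : ℕ) :
    P (0, n + 6) ≤ (3 / 10000) ^ n * P (0, 6) := by
  induction n with
  | zero => simp
  | succ n ih =>
    have := b_geom h (n + 6) (by omega)
    calc P (0, n + 1 + 6) = P (0, n + 6 + 1) := by congr 2
      _ ≤ 3 / 10000 * P (0, n + 6) := this
      _ ≤ 3 / 10000 * ((3 / 10000) ^ n * P (0, 6)) := by linarith
      _ = _ := by ring

/-- the mass of the far levels -/
noncomputable def tailT (P : ℕ × ℕ → ℝ) : ℝ := ∑' n, lvl P (n + 6)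

lemma summable_lvl (h : IsStationary rho0 q0 P) : Summable fun k => lvl P k := by
  simp only [lvl_eq h]
  exact (summable_b h).mul_left _

lemma tailT_le (h : IsStationary rho0 q0 P) : tailT P ≤ 56 / 10 ^ 12 * P (0, 3) := by
  unfold tailT
  have h6 := b6 h
  have h0 := h.nonneg (0, 6)
  have hg : HasSum (fun n : ℕ => (3 / 10000 : ℝ) ^ n) (1 - 3 / 10000)⁻¹ :=
    hasSum_geometric_of_lt_one (by norm_num) (by norm_num)
  have h1 : ∀ n, lvl P (n + 6) ≤ (3 / 10000) ^ n * (1999999999999 * P (0, 6)) := by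
    intro n
    rw [lvl_eq h]
    have := b_tail h n
    nlinarith
  have h2 := Summable.tsum_le_tsum h1 ((summable_nat_add_iff 6).2 (summable_lvl h))
    (hg.summable.mul_right _)
  rw [tsum_mul_right, hg.tsum_eq] at h2
  have h3 := h.nonneg (0, 3)
  norm_num at h2 h6 ⊢
  linarith

/-- real row functions -/
noncomputable def rowR (P : ℕ × ℕ → ℝ) (l : ℕ) (z : ℝ) : ℝ := ∑' n, P (n, l) * z ^ n

lemma row_tail (h : IsStationary rho0 q0 P) (l m : ℕ) (hm : m + l = 6) {z : ℝ} (hz : |z| ≤ 1) :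
    |rowR P l z - ∑ n ∈ range (m + 1), P (n, l) * z ^ n| ≤ tailT P := by
  have hs : Summable fun n => P (n, l) * z ^ n := by
    apply Summable.of_norm_bounded (summable_row h l)
    intro n
    rw [norm_mul, norm_pow, Real.norm_eq_abs, Real.norm_eq_abs, abs_of_nonneg (h.nonneg _)]
    exact mul_le_of_le_one_right (h.nonneg _) (pow_le_one₀ (abs_nonneg _) hz)
  unfold rowR
  rw [← hs.sum_add_tsum_nat_add (m + 1), add_sub_cancel_left]
  have hs2 := (summable_nat_add_iff (m + 1)).2 hs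
  have h1 : ∀ n, |P (n + (m + 1), l) * z ^ (n + (m + 1))| ≤ lvl P (n + 6) := by
    intro n
    rw [abs_mul, abs_pow, abs_of_nonneg (h.nonneg _)]
    apply (mul_le_of_le_one_right (h.nonneg _) (pow_le_one₀ (abs_nonneg _) hz)).trans
    have := le_lvl h (n + m) l
    have e1 : n + m + l = n + 6 := by omega
    rw [e1] at this
    exact this
  unfold tailT
  calc |∑' n, P (n + (m + 1), l) * z ^ (n + (m + 1))|
      ≤ ∑' n, |P (n + (m + 1), l) * z ^ (n + (m + 1))| := by
        have := norm_tsum_le_tsum_norm hs2.norm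
        simpa only [Real.norm_eq_abs] using this
    _ ≤ _ := Summable.tsum_le_tsum h1 (by simpa only [Real.norm_eq_abs] using hs2.norm)
      ((summable_nat_add_iff 6).2 (summable_lvl h))

end special

end Pool.Agent.V11331.LA
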