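import Pool.Agent.V11331.LA.Num

/-!
# Enclosures, continued
-/

namespace Pool.Agent.V11331.LA

open Filter Topology Finset

variable {P : ℕ × ℕ → ℝ}

lemma lvl_le_one (h : IsStationary rho0 q0 P) (k : ℕ) : lvl P k ≤ 1 := by
  have h1 := hasSum_levels h
  have h2 := le_hasSum h1 (k + 1) (fun j _ => Finset.sum_nonneg fun _ _ => h.nonneg _)
  rw [level_succ] at h2
  have := h.nonneg (0, k + 1)
  linarith

lemma crude (h : IsStationary rho0 q0 P) :
    P (2, 1) ≤ 31 / 10 ^ 5 ∧ P (1, 2) ≤ 32 / 10 ^ 13 ∧ P (0, 2) ≤ 501 / 10 ^ 15 ∧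
      P (0, 3) ≤ 43 / 10 ^ 25 := by
  have n := h.nonneg
  have e21 := balance h 2 1
  have e12 := balance h 1 2
  have e03 := balance h 0 3
  have l2 := lvl_eq h 2
  have l3 := lvl_eq h 3
  have m2 := lvl_le_one h 2
  have m3 := lvl_le_one h 3
  norm_num [Finset.sum_range_succ, pre, Nat.choose, lvl, rho0, q0] at e21 e12 e03 l2 l3 m2 m3
  have n21 := n (2, 1); have n12 := n (1, 2); have n02 := n (0, 2); have n03 := n (0, 3)
  have n30 := n (3, 0); have n31 := n (3, 1); have n22 := n (2, 2); have n13 := n (1, 3)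
  have n40 := n (4, 0)
  have a1 : P (0, 2) ≤ 501 / 10 ^ 15 := by norm_num; linarith
  have a2 : P (2, 1) ≤ 31 / 10 ^ 5 := by norm_num at a1 ⊢; linarith
  have a3 : P (1, 2) ≤ 32 / 10 ^ 13 := by norm_num at a1 a2 ⊢; linarith
  refine ⟨a2, a3, a1, ?_⟩
  norm_num at a1 a2 a3 ⊢
  linarith

lemma rel (h : IsStationary rho0 q0 P) :
    P (2, 2) ≤ 130000 * P (0, 3) ∧ P (1, 3) ≤ 14 / 10 ^ 8 * P (0, 3) ∧
      P (2, 3) ≤ 61 / 10 ^ 4 * P (0, 3) ∧ P (3, 3) ≤ 4 / 10 ^ 10 * P (0, 3) ∧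
      P (3, 2) ≤ 61 * P (0, 3) := by
  have n := h.nonneg
  have b4 := b4 h
  have b5 := b5 h
  have b6 := b6 h
  have e22 := balance h 2 2
  have e13 := balance h 1 3
  have e23 := balance h 2 3
  have e33 := balance h 3 3
  have e32 := balance h 3 2
  have l3 := lvl_eq h 3
  have l4 := lvl_eq h 4
  have l5 := lvl_eq h 5
  have l6 := lvl_eq h 6
  norm_num [Finset.sum_range_succ, pre, Nat.choose, lvl, rho0, q0] at e22 e13 e23 e33 e32 l3 l4 l5 l6 b4 b5 b6
  have n03 := n (0, 3)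
  have n04 := n (0, 4)
  have n05 := n (0, 5)
  have n06 := n (0, 6)
  have n13 := n (1, 3); have n22 := n (2, 2); have n31 := n (3, 1); have n40 := n (4, 0)
  have n14 := n (1, 4); have n23 := n (2, 3); have n32 := n (3, 2); have n41 := n (4, 1)
  have n50 := n (5, 0)
  have n15 := n (1, 5); have n24 := n (2, 4); have n33 := n (3, 3); have n42 := n (4, 2)
  have n51 := n (5, 1); have n60 := n (6, 0)
  have n16 := n (1, 6); have n25 := n (2, 5); have n34 := n (3, 4); have n43 := n (4, 3)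
  have n52 := n (5, 2); have n61 := n (6, 1); have n70 := n (7, 0)
  have r1 : P (2, 2) ≤ 130000 * P (0, 3) := by linarith
  have r2 : P (1, 3) ≤ 14 / 10 ^ 8 * P (0, 3) := by norm_num; linarith
  have r3 : P (2, 3) ≤ 61 / 10 ^ 4 * P (0, 3) := by norm_num; linarith
  have r4 : P (3, 3) ≤ 4 / 10 ^ 10 * P (0, 3) := by norm_num; linarith
  have r5 : P (3, 2) ≤ 61 * P (0, 3) := by linarith
  exact ⟨r1, r2, r3, r4, r5⟩


lemma far_levels (h : IsStationary rho0 q0 P) :
    ∑' N, (∑ i ∈ range (N + 5 + 1), P (i, N + 5 - i)) ≤ 3 / 10 ^ 15 := by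
  have h1 : ∀ N, (∑ i ∈ range (N + 5 + 1), P (i, N + 5 - i)) ≤
      (3 / 10000) ^ N * (2 * 10 ^ 12 * P (0, 4)) := by
    intro N
    have e := level_succ P (N + 4)
    have e' : ∑ i ∈ range (N + 5 + 1), P (i, N + 5 - i) = P (0, N + 4 + 1) + lvl P (N + 4) := e
    rw [e', lvl_eq h]
    have g1 : P (0, N + 4) ≤ (3 / 10000) ^ N * P (0, 4) := by
      clear e e'
      induction N with
      | zero => simp
      | succ n ih =>
        have := b_geom h (n + 4) (by omega)
        calc P (0, n + 1 + 4) = P (0, n + 4 + 1) := by congr 2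
          _ ≤ 3 / 10000 * P (0, n + 4) := this
          _ ≤ 3 / 10000 * ((3 / 10000) ^ n * P (0, 4)) := by linarith
          _ = _ := by ring
    have g2 := b_geom h (N + 4) (by omega)
    have g3 := h.nonneg (0, N + 4)
    calc P (0, N + 4 + 1) + 1999999999999 * P (0, N + 4)
        ≤ 2 * 10 ^ 12 * P (0, N + 4) := by norm_num; linarith
      _ ≤ 2 * 10 ^ 12 * ((3 / 10000) ^ N * P (0, 4)) := by
        apply mul_le_mul_of_nonneg_left g1; norm_num
      _ = _ := by ring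
  have hg : HasSum (fun n : ℕ => (3 / 10000 : ℝ) ^ n) (1 - 3 / 10000)⁻¹ :=
    hasSum_geometric_of_lt_one (by norm_num) (by norm_num)
  have hs : Summable fun N => (∑ i ∈ range (N + 5 + 1), P (i, N + 5 - i)) :=
    (summable_nat_add_iff (f := fun N => ∑ i ∈ range (N + 1), P (i, N - i)) 5).2
      (hasSum_levels h).summable
  have h2 := Summable.tsum_le_tsum h1 hs (hg.summable.mul_right _)
  rw [tsum_mul_right, hg.tsum_eq] at h2
  have h3 := b4 h
  have h4 := (crude h).2.2.2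
  have h5 := h.nonneg (0, 4)
  norm_num at h2 h3 h4 ⊢
  linarith

lemma mass_low (h : IsStationary rho0 q0 P) : 65 / 100 ≤ P (3, 0) := by
  have n := h.nonneg
  have hm := hasSum_levels h
  have h1 := hm.summable.sum_add_tsum_nat_add 5
  rw [hm.tsum_eq] at h1
  have h2 := far_levels h
  obtain ⟨c1, c2, c3, c4⟩ := crude h
  have e20 := balance h 2 0
  have e10 := balance h 1 0
  have e11 := balance h 1 1
  have e02 := balance h 0 2
  have l0 := lvl_eq h 0
  have l1 := lvl_eq h 1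
  have l2 := lvl_eq h 2
  have l3 := lvl_eq h 3
  have m1 := lvl_le_one h 1
  have m2 := lvl_le_one h 2
  have b4 := b4 h
  norm_num [Finset.sum_range_succ, pre, Nat.choose, lvl, rho0, q0] at e20 e10 e11 e02 l0 l1 l2 l3 m1 m2 b4 h1 h2 c1 c2 c3 c4
  have n00 := n (0, 0); have n01 := n (0, 1); have n02 := n (0, 2); have n03 := n (0, 3)
  have n10 := n (1, 0); have n11 := n (1, 1); have n12 := n (1, 2); have n20 := n (2, 0)
  have n21 := n (2, 1); have n30 := n (3, 0); have n04 := n (0, 4)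
  linarith

/-- the relations used at the end -/
lemma final_facts (h : IsStationary rho0 q0 P) :
    -- the cut equation at level 3
    1999999999999 * P (0, 2) = P (3, 0) + P (2, 1) + P (1, 2) ∧
    -- C
    P (2, 1) ≤ 1 / 10 ^ 4 * (10003 / 10000) * P (3, 0) ∧
    1 / 10 ^ 4 * (999 / 1000) * P (3, 0) ≤ P (2, 1) ∧
    -- E
    999 / 10 ^ 11 * P (2, 1) ≤ P (1, 2) ∧ P (1, 2) ≤ 1001 / 10 ^ 11 * P (2, 1) ∧
    -- H
    999 / 10 ^ 15 * (P (0, 2) + P (1, 2)) ≤ P (0, 3) ∧
    P (0, 3) ≤ 1001 / 10 ^ 15 * (P (0, 2) + P (1, 2)) := by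
  have n := h.nonneg
  obtain ⟨c1, c2, c3, c4⟩ := crude h
  obtain ⟨r1, r2, r3, r4, r5⟩ := rel h
  have hA := mass_low h
  have e30 := balance h 3 0
  have e12 := balance h 1 2
  have e03 := balance h 0 3
  have l2 := lvl_eq h 2
  have l3 := lvl_eq h 3
  norm_num [Finset.sum_range_succ, pre, Nat.choose, lvl, rho0, q0] at e30 e12 e03 l2 l3 c1 c2 c3 c4 r1 r2 r3 r4 r5
  have n02 := n (0, 2); have n03 := n (0, 3); have n12 := n (1, 2); have n21 := n (2, 1)
  have n30 := n (3, 0); have n13 := n (1, 3); have n22 := n (2, 2); have n31 := n (3, 1)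
  have n40 := n (4, 0)
  have s1 : P (2, 1) ≤ 1 / 10 ^ 4 * (10003 / 10000) * P (3, 0) := by norm_num; linarith
  have s2 : 1 / 10 ^ 4 * (999 / 1000) * P (3, 0) ≤ P (2, 1) := by norm_num; linarith
  have s3 : 999 / 10 ^ 11 * P (2, 1) ≤ P (1, 2) := by norm_num; linarith
  norm_num at s1 s2 s3
  have s4 : P (1, 2) ≤ 1001 / 10 ^ 11 * P (2, 1) := by norm_num; linarith
  have s5 : 999 / 10 ^ 15 * (P (0, 2) + P (1, 2)) ≤ P (0, 3) := by norm_num; linarith
  have s6 : P (0, 3) ≤ 1001 / 10 ^ 15 * (P (0, 2) + P (1, 2)) := by norm_num; linarith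
  refine ⟨by linarith, ?_, ?_, ?_, s4, s5, s6⟩
  · norm_num; linarith
  · norm_num; linarith
  · norm_num; linarith

end Pool.Agent.V11331.LA
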