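import Pool.Agent.V11331.LA.Num2

/-!
# A real `z ∈ (-1, 0)` at which Newton's inequality fails
-/

namespace Pool.Agent.V11331.LA

open Filter Topology Finset

variable {P : ℕ × ℕ → ℝ}

lemma final_facts2 (h : IsStationary rho0 q0 P) :
    P (1, 2) ≤ 1 / 10 ^ 8 * (1999999999999 / 2000000000000 * P (2, 1) +
      3001 / 1000 * (P (0, 2) + P (1, 2))) ∧
    1 / 10 ^ 8 * (1999999999999 / 2000000000000) * P (1, 1) ≤ P (0, 2) ∧
    1 / 10 ^ 4 * P (2, 0) ≤ 501 / 10 ^ 15 * P (3, 0) + 99980001 * P (0, 2) ∧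
    99980001 * P (1, 2) ≤ (1 / 10 ^ 4 + 1 / 10 ^ 12) * P (3, 0) +
      3001 / 1000 * (P (0, 2) + P (1, 2)) ∧
    P (0, 0) ≤ 501 / 10 ^ 15 ∧
    P (3, 1) ≤ 2 * 10 ^ 12 * P (0, 3) ∧ P (4, 0) ≤ 2 * 10 ^ 12 * P (0, 3) ∧
    P (4, 1) ≤ 6 * 10 ^ 8 * P (0, 3) ∧ P (5, 0) ≤ 6 * 10 ^ 8 * P (0, 3) ∧
    P (5, 1) ≤ 18 * P (0, 3) ∧ P (6, 0) ≤ 18 * P (0, 3) ∧ P (4, 2) ≤ 18 * P (0, 3) := by
  have n := h.nonneg
  obtain ⟨c1, c2, c3, c4⟩ := crude h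
  obtain ⟨r1, r2, r3, r4, r5⟩ := rel h
  obtain ⟨s1, s2, s3, s4, s5, s6, s7⟩ := final_facts h
  have b4 := b4 h
  have b5 := b5 h
  have m0 := lvl_le_one h 0
  have e30 := balance h 3 0
  have e12 := balance h 1 2
  have e20 := balance h 2 0
  have e02 := balance h 0 2
  have l0 := lvl_eq h 0
  have l3 := lvl_eq h 3
  have l4 := lvl_eq h 4
  have l5 := lvl_eq h 5
  norm_num [Finset.sum_range_succ, pre, Nat.choose, lvl, rho0, q0] at e30 e12 e20 e02 l0 l3 l4 l5 c1 c2 c3 c4 r1 r2 r3 r4 r5 s1 s2 s3 s4 s5 s6 s7 b4 b5 m0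
  have n00 := n (0, 0); have n01 := n (0, 1); have n11 := n (1, 1); have n20 := n (2, 0)
  have n02 := n (0, 2); have n03 := n (0, 3); have n12 := n (1, 2); have n21 := n (2, 1)
  have n30 := n (3, 0); have n13 := n (1, 3); have n22 := n (2, 2); have n31 := n (3, 1)
  have n40 := n (4, 0)
  have n14 := n (1, 4); have n23 := n (2, 3); have n32 := n (3, 2); have n41 := n (4, 1)
  have n50 := n (5, 0); have n04 := n (0, 4); have n05 := n (0, 5)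
  have n15 := n (1, 5); have n24 := n (2, 4); have n33 := n (3, 3); have n42 := n (4, 2)
  have n51 := n (5, 1); have n60 := n (6, 0)
  refine ⟨?_, ?_, ?_, ?_, ?_, ?_, ?_, ?_, ?_, ?_, ?_, ?_⟩
  · norm_num; linarith
  · norm_num; linarith
  · norm_num; linarith
  · norm_num; linarith
  · norm_num; linarith
  · norm_num; linarith
  · norm_num; linarith
  · norm_num; linarith
  · norm_num; linarith
  · norm_num; linarith
  · norm_num; linarith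
  · norm_num; linarith

lemma neg_le_mul' {p w : ℝ} (hp : 0 ≤ p) (hw : -1 ≤ w) : -p ≤ p * w := by
  have := mul_nonneg hp (show 0 ≤ w + 1 by linarith)
  linarith

lemma zpow_bounds {z : ℝ} (z1 : z ≤ -49 / 100) (z2 : -52 / 100 ≤ z) :
    z ^ 2 ≤ 1 ∧ 24 / 100 ≤ z ^ 2 ∧ z ^ 3 ≤ 0 ∧ -1 ≤ z ^ 3 ∧ 0 ≤ z ^ 4 ∧ z ^ 4 ≤ 1 ∧
      z ^ 5 ≤ 0 ∧ -1 ≤ z ^ 5 ∧ z ^ 6 ≤ 1 := by
  have zz : z ^ 2 ≤ 1 := by nlinarith
  have zz2 : 24 / 100 ≤ z ^ 2 := by nlinarith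
  have z3 : z ^ 3 ≤ 0 := by
    have : z ^ 3 = z * z ^ 2 := by ring
    rw [this]; exact mul_nonpos_of_nonpos_of_nonneg (by linarith) (sq_nonneg z)
  have z3' : -1 ≤ z ^ 3 := by
    have : z ^ 3 = z ^ 2 * z := by ring
    rw [this]
    have := neg_le_mul' (sq_nonneg z) (show -1 ≤ z by linarith)
    linarith
  have z4 : 0 ≤ z ^ 4 := by positivity
  have z4' : z ^ 4 ≤ 1 := by
    have : z ^ 4 = z ^ 2 * z ^ 2 := by ring
    rw [this]; exact mul_le_one₀ zz (sq_nonneg z) zz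
  have z5 : z ^ 5 ≤ 0 := by
    have : z ^ 5 = z * z ^ 4 := by ring
    rw [this]; exact mul_nonpos_of_nonpos_of_nonneg (by linarith) z4
  have z5' : -1 ≤ z ^ 5 := by
    have : z ^ 5 = z ^ 4 * z := by ring
    rw [this]
    have := neg_le_mul' z4 (show -1 ≤ z by linarith)
    linarith
  have z6 : z ^ 6 ≤ 1 := by
    have : z ^ 6 = z ^ 4 * z ^ 2 := by ring
    rw [this]; exact mul_le_one₀ z4' (sq_nonneg z) zz
  exact ⟨zz, zz2, z3, z3', z4, z4', z5, z5', z6⟩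

lemma core_Dt {C E F D t : ℝ} (hC : 0 ≤ C) (hE : 0 < E) (hF : 0 ≤ F) (hD : 0 ≤ D)
    (hFt : F = t * E) (t0 : 0 ≤ t) (t2 : t ≤ 51 / 100)
    (s5 : E ≤ 1001 / 10 ^ 11 * C)
    (f1 : E ≤ 1 / 10 ^ 8 * (1999999999999 / 2000000000000 * C + 3001 / 1000 * (F + E)))
    (f2 : 1 / 10 ^ 8 * (1999999999999 / 2000000000000) * D ≤ F) :
    D - t * C ≤ 24 / 10 ^ 9 * C := by
  have g1 : D * E ≤ D * (1 / 10 ^ 8 * (1999999999999 / 2000000000000 * C +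
      3001 / 1000 * (F + E))) := mul_le_mul_of_nonneg_left f1 hD
  have g2 : 1 / 10 ^ 8 * (1999999999999 / 2000000000000) * D * C ≤ F * C :=
    mul_le_mul_of_nonneg_right f2 hC
  have g3 : 1 / 10 ^ 8 * (1999999999999 / 2000000000000) * D * (3001 / 1000 * (F + E)) ≤
      F * (3001 / 1000 * (F + E)) := mul_le_mul_of_nonneg_right f2 (by positivity)
  have g5 : D * E ≤ F * C + 301 / 100 * (F * (F + E)) := by
    have h0 : 0 ≤ D * (F + E) := by positivity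
    have h0' : 0 ≤ F * (F + E) := by positivity
    have e1 : D * (1 / 10 ^ 8 * (1999999999999 / 2000000000000 * C +
      3001 / 1000 * (F + E))) = 1 / 10 ^ 8 * (1999999999999 / 2000000000000) * (D * C) +
        3001 / 10 ^ 11 * (D * (F + E)) := by ring
    have e2 : 1 / 10 ^ 8 * (1999999999999 / 2000000000000) * D * C =
      1 / 10 ^ 8 * (1999999999999 / 2000000000000) * (D * C) := by ring
    have e3 : 1 / 10 ^ 8 * (1999999999999 / 2000000000000) * D * (3001 / 1000 * (F + E)) =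
      1 / 10 ^ 8 * (1999999999999 / 2000000000000) * (3001 / 1000) * (D * (F + E)) := by ring
    have e4 : F * (3001 / 1000 * (F + E)) = 3001 / 1000 * (F * (F + E)) := by ring
    rw [e1] at g1
    rw [e2] at g2
    rw [e3, e4] at g3
    norm_num at g1 g2 g3 ⊢
    linarith
  have g6 : (D - t * C) * E ≤ (301 / 100 * (t * (1 + t)) * E) * E := by
    have e1 : (D - t * C) * E = D * E - F * C := by rw [hFt]; ring
    have e2 : (301 / 100 * (t * (1 + t)) * E) * E = 301 / 100 * (F * (F + E)) := by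
      rw [hFt]; ring
    rw [e1, e2]
    linarith
  have g7 : D - t * C ≤ 301 / 100 * (t * (1 + t)) * E := le_of_mul_le_mul_right g6 hE
  have g8 : t * (1 + t) ≤ 771 / 1000 := by nlinarith
  have g9 : 301 / 100 * (t * (1 + t)) * E ≤ 301 / 100 * (771 / 1000) * E := by
    apply mul_le_mul_of_nonneg_right _ hE.le
    linarith
  norm_num at g9 s5 ⊢
  linarith

lemma core_Bt {A B C E F t : ℝ} (hA : 0 ≤ A) (hE : 0 < E)
    (hFt : F = t * E) (t0 : 0 ≤ t) (t2 : t ≤ 51 / 100)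
    (s2 : C ≤ 1 / 10 ^ 4 * (10003 / 10000) * A)
    (s5 : E ≤ 1001 / 10 ^ 11 * C)
    (f3 : 1 / 10 ^ 4 * B ≤ 501 / 10 ^ 15 * A + 99980001 * F)
    (f4 : 99980001 * E ≤ (1 / 10 ^ 4 + 1 / 10 ^ 12) * A + 3001 / 1000 * (F + E)) :
    B - t * A ≤ 4 / 10 ^ 8 * A := by
  have g1 : 99980001 * F ≤ t * ((1 / 10 ^ 4 + 1 / 10 ^ 12) * A + 3001 / 1000 * (F + E)) := by
    have := mul_le_mul_of_nonneg_left f4 t0
    have e : 99980001 * F = t * (99980001 * E) := by rw [hFt]; ring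
    rw [e]; exact this
  have hF2 : F ≤ 51 / 100 * E := by
    rw [hFt]; exact mul_le_mul_of_nonneg_right t2 hE.le
  have g2 : 3001 / 1000 * (F + E) ≤ 5 / 10 ^ 12 * A := by
    norm_num at s2 s5 ⊢
    linarith
  have g3 : t * ((1 / 10 ^ 4 + 1 / 10 ^ 12) * A + 3001 / 1000 * (F + E)) ≤
      t * (1 / 10 ^ 4 * A) + 51 / 100 * (6 / 10 ^ 12 * A) := by
    have : (1 / 10 ^ 4 + 1 / 10 ^ 12) * A + 3001 / 1000 * (F + E) ≤
      1 / 10 ^ 4 * A + 6 / 10 ^ 12 * A := by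
      norm_num at g2 ⊢; linarith
    calc _ ≤ t * (1 / 10 ^ 4 * A + 6 / 10 ^ 12 * A) :=
          mul_le_mul_of_nonneg_left this t0
      _ = t * (1 / 10 ^ 4 * A) + t * (6 / 10 ^ 12 * A) := by ring
      _ ≤ _ := by
        have : t * (6 / 10 ^ 12 * A) ≤ 51 / 100 * (6 / 10 ^ 12 * A) :=
          mul_le_mul_of_nonneg_right t2 (by positivity)
        linarith
  have e5 : t * (1 / 10 ^ 4 * A) = 1 / 10 ^ 4 * (t * A) := by ring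
  rw [e5] at g3
  norm_num at g1 g3 f3 ⊢
  linarith

lemma core_R3 {E F H p13 p23 p33 T R3 z : ℝ} (hE : 0 ≤ E) (hH : 0 ≤ H)
    (n13 : 0 ≤ p13) (n23 : 0 ≤ p23) (n33 : 0 ≤ p33)
    (r2 : p13 ≤ 14 / 10 ^ 8 * H) (r4 : p33 ≤ 4 / 10 ^ 10 * H)
    (hT : T ≤ 56 / 10 ^ 12 * H) (z1 : z ≤ -49 / 100) (z2 : -52 / 100 ≤ z)
    (s6 : 999 / 10 ^ 15 * (F + E) ≤ H) (hF2 : 49 / 100 * E ≤ F)
    (R3h : |R3 - (H + p13 * z + p23 * z ^ 2 + p33 * z ^ 3)| ≤ T) :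
    99 / 100 * (999 / 10 ^ 15 * (149 / 100 * E)) ≤ R3 := by
  obtain ⟨zz, zz2, z3, z3', z4, z4', z5, z5', z6⟩ := zpow_bounds z1 z2
  rw [abs_le] at R3h
  have e1 : -p13 ≤ p13 * z := neg_le_mul' n13 (by linarith)
  have e2 : 0 ≤ p23 * z ^ 2 := mul_nonneg n23 (sq_nonneg z)
  have e3 : -p33 ≤ p33 * z ^ 3 := neg_le_mul' n33 z3'
  norm_num at r2 r4 hT s6 ⊢
  linarith [R3h.1]

lemma core_R2 {E F H p22 p32 p42 T R2 z : ℝ} (hE : 0 ≤ E) (hH : 0 ≤ H)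
    (n22 : 0 ≤ p22) (n32 : 0 ≤ p32) (n42 : 0 ≤ p42)
    (r1 : p22 ≤ 130000 * H) (r5 : p32 ≤ 61 * H) (f12 : p42 ≤ 18 * H)
    (hT : T ≤ 56 / 10 ^ 12 * H) (z1 : z ≤ -49 / 100) (z2 : -52 / 100 ≤ z)
    (hHE : H ≤ 152 / 10 ^ 14 * E) (k2a : F + E * z = -(1 / 40000) * E)
    (R2h : |R2 - (F + E * z + p22 * z ^ 2 + p32 * z ^ 3 + p42 * z ^ 4)| ≤ T) :
    R2 ^ 2 ≤ (252 / 10 ^ 7 * E) ^ 2 := by
  obtain ⟨zz, zz2, z3, z3', z4, z4', z5, z5', z6⟩ := zpow_bounds z1 z2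
  rw [abs_le] at R2h
  have e2a : 0 ≤ p22 * z ^ 2 := mul_nonneg n22 (sq_nonneg z)
  have e2b : p22 * z ^ 2 ≤ p22 := mul_le_of_le_one_right n22 zz
  have e2c : -p32 ≤ p32 * z ^ 3 := neg_le_mul' n32 z3'
  have e2d : p32 * z ^ 3 ≤ 0 := mul_nonpos_of_nonneg_of_nonpos n32 z3
  have e2e : 0 ≤ p42 * z ^ 4 := mul_nonneg n42 z4
  have e2f : p42 * z ^ 4 ≤ p42 := mul_le_of_le_one_right n42 z4'
  have k2u : R2 ≤ 252 / 10 ^ 7 * E := by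
    norm_num at hHE hT ⊢
    linarith [R2h.2]
  have k2l : -(252 / 10 ^ 7 * E) ≤ R2 := by
    norm_num at hHE hT ⊢
    linarith [R2h.1]
  exact sq_le_sq' k2l k2u

lemma core_R1 {C D E G H p31 p41 p51 T R1 z t : ℝ} (hC : 0 ≤ C) (hE : 0 ≤ E) (hH : 0 ≤ H)
    (hG : 0 ≤ G) (n31 : 0 ≤ p31) (n41 : 0 ≤ p41) (n51 : 0 ≤ p51)
    (f6 : p31 ≤ 2 * 10 ^ 12 * H) (f10 : p51 ≤ 18 * H) (s5 : E ≤ 1001 / 10 ^ 11 * C)
    (hT : T ≤ 56 / 10 ^ 12 * H) (z1 : z ≤ -49 / 100) (z2 : -52 / 100 ≤ z) (t1 : 49 / 100 ≤ t)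
    (hHE : H ≤ 152 / 10 ^ 14 * E) (hz : z = -(t + 1 / 40000))
    (hDt : D - t * C ≤ 24 / 10 ^ 9 * C)
    (R1h : |R1 - (G + D * z + C * z ^ 2 + p31 * z ^ 3 + p41 * z ^ 4 + p51 * z ^ 5)| ≤ T) :
    121 / 10 ^ 7 * C ≤ R1 := by
  obtain ⟨zz, zz2, z3, z3', z4, z4', z5, z5', z6⟩ := zpow_bounds z1 z2
  rw [abs_le] at R1h
  have h1 : D * z + C * z ^ 2 = (t + 1 / 40000) * (1 / 40000 * C - (D - t * C)) := by
    rw [hz]; ring
  have h2 : 249 / 10 ^ 7 * C ≤ 1 / 40000 * C - (D - t * C) := by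
    norm_num at hDt ⊢
    linarith
  have h3 : 49 / 100 * (249 / 10 ^ 7 * C) ≤ (t + 1 / 40000) * (1 / 40000 * C - (D - t * C)) := by
    apply mul_le_mul (by linarith) h2 (by positivity) (by linarith)
  have e1 : -p31 ≤ p31 * z ^ 3 := neg_le_mul' n31 z3'
  have e2 : 0 ≤ p41 * z ^ 4 := mul_nonneg n41 z4
  have e3 : -p51 ≤ p51 * z ^ 5 := neg_le_mul' n51 z5'
  rw [← h1] at h3
  have h4 := R1h.1
  clear h1 h2 hz hDt
  generalize D * z = u1 at *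
  generalize C * z ^ 2 = u2 at *
  norm_num at h3 hHE hT s5 f6 ⊢
  linarith

lemma core_R0 {A B C E H I J p40 p50 p60 T R0 z t : ℝ} (hA : 65 / 100 ≤ A) (hE : 0 ≤ E)
    (hH : 0 ≤ H) (hI : 0 ≤ I) (n40 : 0 ≤ p40) (n50 : 0 ≤ p50) (n60 : 0 ≤ p60)
    (f5 : J ≤ 501 / 10 ^ 15) (f7 : p40 ≤ 2 * 10 ^ 12 * H) (f11 : p60 ≤ 18 * H)
    (s2 : C ≤ 1 / 10 ^ 4 * (10003 / 10000) * A) (s5 : E ≤ 1001 / 10 ^ 11 * C)
    (hT : T ≤ 56 / 10 ^ 12 * H) (z1 : z ≤ -49 / 100) (z2 : -52 / 100 ≤ z)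
    (hHE : H ≤ 152 / 10 ^ 14 * E) (hz : z = -(t + 1 / 40000))
    (hBt : B - t * A ≤ 4 / 10 ^ 8 * A)
    (R0h : |R0 - (J + I * z + B * z ^ 2 + A * z ^ 3 + p40 * z ^ 4 + p50 * z ^ 5 + p60 * z ^ 6)| ≤ T) :
    R0 < 0 := by
  obtain ⟨zz, zz2, z3, z3', z4, z4', z5, z5', z6⟩ := zpow_bounds z1 z2
  rw [abs_le] at R0h
  have h1 : B * z ^ 2 + A * z ^ 3 = z ^ 2 * ((B - t * A) - 1 / 40000 * A) := by
    have h0 : z ^ 3 = z ^ 2 * (-(t + 1 / 40000)) := by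
      rw [← hz]; ring
    rw [h0]; ring
  have h2 : z ^ 2 * ((B - t * A) - 1 / 40000 * A) ≤ 24 / 100 * (-(249 / 10 ^ 7) * A) := by
    have e1 : (B - t * A) - 1 / 40000 * A ≤ -(249 / 10 ^ 7) * A := by
      norm_num at hBt ⊢; linarith
    have e2 : -(249 / 10 ^ 7) * A ≤ 0 := by
      norm_num; linarith
    calc z ^ 2 * ((B - t * A) - 1 / 40000 * A) ≤ z ^ 2 * (-(249 / 10 ^ 7) * A) :=
          mul_le_mul_of_nonneg_left e1 (sq_nonneg z)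
      _ ≤ _ := mul_le_mul_of_nonpos_right zz2 e2
  have e1 : I * z ≤ 0 := mul_nonpos_of_nonneg_of_nonpos hI (by linarith)
  have e2 : p40 * z ^ 4 ≤ p40 := mul_le_of_le_one_right n40 z4'
  have e3 : p50 * z ^ 5 ≤ 0 := mul_nonpos_of_nonneg_of_nonpos n50 z5
  have e4 : p60 * z ^ 6 ≤ p60 := mul_le_of_le_one_right n60 z6
  rw [← h1] at h2
  have h4 := R0h.2
  clear h1 hz hBt
  generalize B * z ^ 2 = u1 at *
  generalize A * z ^ 3 = u2 at *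
  norm_num at h2 hHE hT s5 s2 f5 f7
  linarith

/-- The pure inequality behind the counterexample. -/
lemma core {A B C E F H D J I G p22 p32 p42 p13 p23 p33 p31 p41 p51 p40 p50 p60 T R0 R1 R2 R3 : ℝ}
    (hA : 65 / 100 ≤ A) (hC : 0 ≤ C) (hE : 0 ≤ E) (hF : 0 ≤ F) (hH : 0 ≤ H)
    (hD : 0 ≤ D) (hI : 0 ≤ I) (hG : 0 ≤ G)
    (n22 : 0 ≤ p22) (n32 : 0 ≤ p32) (n42 : 0 ≤ p42) (n13 : 0 ≤ p13) (n23 : 0 ≤ p23)
    (n33 : 0 ≤ p33) (n31 : 0 ≤ p31) (n41 : 0 ≤ p41) (n51 : 0 ≤ p51) (n40 : 0 ≤ p40)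
    (n50 : 0 ≤ p50) (n60 : 0 ≤ p60)
    (s2 : C ≤ 1 / 10 ^ 4 * (10003 / 10000) * A) (s3 : 1 / 10 ^ 4 * (999 / 1000) * A ≤ C)
    (s4 : 999 / 10 ^ 11 * C ≤ E) (s5 : E ≤ 1001 / 10 ^ 11 * C)
    (s6 : 999 / 10 ^ 15 * (F + E) ≤ H) (s7 : H ≤ 1001 / 10 ^ 15 * (F + E))
    (r1 : p22 ≤ 130000 * H) (r2 : p13 ≤ 14 / 10 ^ 8 * H)
    (r4 : p33 ≤ 4 / 10 ^ 10 * H) (r5 : p32 ≤ 61 * H)
    (f1 : E ≤ 1 / 10 ^ 8 * (1999999999999 / 2000000000000 * C + 3001 / 1000 * (F + E)))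
    (f2 : 1 / 10 ^ 8 * (1999999999999 / 2000000000000) * D ≤ F)
    (f3 : 1 / 10 ^ 4 * B ≤ 501 / 10 ^ 15 * A + 99980001 * F)
    (f4 : 99980001 * E ≤ (1 / 10 ^ 4 + 1 / 10 ^ 12) * A + 3001 / 1000 * (F + E))
    (f5 : J ≤ 501 / 10 ^ 15) (f6 : p31 ≤ 2 * 10 ^ 12 * H) (f7 : p40 ≤ 2 * 10 ^ 12 * H)
    (f10 : p51 ≤ 18 * H)
    (f11 : p60 ≤ 18 * H) (f12 : p42 ≤ 18 * H) (hT : T ≤ 56 / 10 ^ 12 * H)
    (ht1 : 49 / 100 ≤ F / E) (ht2 : F / E ≤ 51 / 100)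
    {z : ℝ} (hz : z = -(F / E + 1 / 40000))
    (R0h : |R0 - (J + I * z + B * z ^ 2 + A * z ^ 3 + p40 * z ^ 4 + p50 * z ^ 5 + p60 * z ^ 6)| ≤ T)
    (R1h : |R1 - (G + D * z + C * z ^ 2 + p31 * z ^ 3 + p41 * z ^ 4 + p51 * z ^ 5)| ≤ T)
    (R2h : |R2 - (F + E * z + p22 * z ^ 2 + p32 * z ^ 3 + p42 * z ^ 4)| ≤ T)
    (R3h : |R3 - (H + p13 * z + p23 * z ^ 2 + p33 * z ^ 3)| ≤ T) :
    -1 < z ∧ z < 0 ∧ R0 < 0 ∧ 2 * R2 ^ 2 < 3 * (R1 * R3) := by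
  have hCpos : 0 < C := by norm_num at s3; linarith
  have hEpos : 0 < E := by norm_num at s4; linarith
  obtain ⟨t, ht⟩ : ∃ t, t = F / E := ⟨_, rfl⟩
  have hFt : F = t * E := by rw [ht]; field_simp
  rw [← ht] at hz ht1 ht2
  have z1 : z ≤ -49 / 100 := by rw [hz]; linarith
  have z2 : -52 / 100 ≤ z := by rw [hz]; linarith
  have t0 : 0 ≤ t := by linarith
  have hF2 : F ≤ 51 / 100 * E := by
    rw [hFt]; exact mul_le_mul_of_nonneg_right ht2 hE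
  have hF1 : 49 / 100 * E ≤ F := by
    rw [hFt]; exact mul_le_mul_of_nonneg_right ht1 hE
  have hHE : H ≤ 152 / 10 ^ 14 * E := by
    norm_num at s7 ⊢
    linarith
  have k3 := core_R3 hE hH n13 n23 n33 r2 r4 hT z1 z2 s6 hF1 R3h
  have k2a : F + E * z = -(1 / 40000) * E := by rw [hz, hFt]; ring
  have k2 := core_R2 hE hH n22 n32 n42 r1 r5 f12 hT z1 z2 hHE k2a R2h
  have hDt := core_Dt hC hEpos hF hD hFt t0 ht2 s5 f1 f2
  have k1 := core_R1 hC hE hH hG n31 n41 n51 f6 f10 s5 hT z1 z2 ht1 hHE hz hDt R1h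
  have hBt := core_Bt (show 0 ≤ A by linarith) hEpos hFt t0 ht2 s2 s5 f3 f4
  have k0 := core_R0 hA hE hH hI n40 n50 n60 f5 f7 f11 s2 s5 hT z1 z2 hHE hz hBt R0h
  refine ⟨by linarith, by linarith, k0, ?_⟩
  have k13 : (121 / 10 ^ 7 * C) * (99 / 100 * (999 / 10 ^ 15 * (149 / 100 * E))) ≤ R1 * R3 := by
    apply mul_le_mul k1 k3 (by positivity)
    exact le_trans (by positivity) k1
  have k22 : (252 / 10 ^ 7 * E) ^ 2 ≤ (252 / 10 ^ 7) ^ 2 * (1001 / 10 ^ 11) * (C * E) := by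
    have : E * E ≤ (1001 / 10 ^ 11 * C) * E := mul_le_mul_of_nonneg_right s5 hE
    calc (252 / 10 ^ 7 * E) ^ 2 = (252 / 10 ^ 7) ^ 2 * (E * E) := by ring
      _ ≤ (252 / 10 ^ 7) ^ 2 * ((1001 / 10 ^ 11 * C) * E) := by
        apply mul_le_mul_of_nonneg_left this (by positivity)
      _ = _ := by ring
  have hCE : 0 < C * E := mul_pos hCpos hEpos
  have e13 : (121 / 10 ^ 7 * C) * (99 / 100 * (999 / 10 ^ 15 * (149 / 100 * E))) =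
    121 / 10 ^ 7 * (99 / 100 * (999 / 10 ^ 15 * (149 / 100))) * (C * E) := by ring
  rw [e13] at k13
  have k2' := k2.trans k22
  clear e13 k22 k2 k2a hDt hBt k0 R0h R1h R2h R3h
  generalize C * E = ce at *
  generalize R2 ^ 2 = r2 at *
  generalize R1 * R3 = r13 at *
  norm_num at k2' k13 ⊢
  linarith

theorem violation (h : IsStationary rho0 q0 P) :
    ∃ z : ℝ, -1 < z ∧ z < 0 ∧ rowR P 0 z < 0 ∧
      2 * rowR P 2 z ^ 2 < 3 * (rowR P 1 z * rowR P 3 z) := by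
  have n := h.nonneg
  obtain ⟨r1, r2, r3, r4, r5⟩ := rel h
  obtain ⟨s1, s2, s3, s4, s5, s6, s7⟩ := final_facts h
  obtain ⟨f1, f2, f3, f4, f5, f6, f7, f8, f9, f10, f11, f12⟩ := final_facts2 h
  have t1 : 49 / 100 ≤ P (0, 2) / P (1, 2) ∧ P (0, 2) / P (1, 2) ≤ 51 / 100 := by
    have hA := mass_low h
    have n12 := n (1, 2)
    have hCpos : 0 < P (2, 1) := by norm_num at s3; linarith
    have hEpos : 0 < P (1, 2) := by norm_num at s4; linarith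
    constructor
    · rw [le_div_iff₀ hEpos]
      norm_num at s2 s5
      linarith
    · rw [div_le_iff₀ hEpos]
      norm_num at s2 s3 s4 s5
      linarith
  set z : ℝ := -(P (0, 2) / P (1, 2) + 1 / 40000) with hz
  have hz1 : |z| ≤ 1 := by
    rw [abs_le]
    constructor <;> rw [hz] <;> linarith [t1.1, t1.2]
  have R0h := row_tail h 0 6 rfl hz1
  have R1h := row_tail h 1 5 rfl hz1
  have R2h := row_tail h 2 4 rfl hz1
  have R3h := row_tail h 3 3 rfl hz1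
  simp only [Finset.sum_range_succ, Finset.sum_range_zero, zero_add, pow_zero, mul_one, pow_one]
    at R0h R1h R2h R3h
  have := core (mass_low h) (n (2, 1)) (n (1, 2)) (n (0, 2)) (n (0, 3)) (n (1, 1))
    (n (1, 0)) (n (0, 1)) (n (2, 2)) (n (3, 2)) (n (4, 2)) (n (1, 3)) (n (2, 3))
    (n (3, 3)) (n (3, 1)) (n (4, 1)) (n (5, 1)) (n (4, 0)) (n (5, 0)) (n (6, 0))
    s2 s3 s4 s5 s6 s7 r1 r2 r4 r5 f1 f2 f3 f4 f5 f6 f7 f10 f11 f12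
    (tailT_le h) t1.1 t1.2 hz R0h R1h R2h R3h
  exact ⟨z, this⟩

end Pool.Agent.V11331.LA
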