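import Pool.Agent.V11331.LA.Entire
import Pool.Agent.V11331.LA.Newton

/-!
# Consequences of the product form at a fixed `z`
-/

namespace Pool.Agent.V11331.LA

open Filter Topology Finset Polynomial

section fixed

variable {c : ℕ → ℂ} {b : ℕ → ℝ} {a : ℕ → ℂ}

lemma ext_zero (hb : Summable b) (hb0 : ∀ k, 0 < b k) (ha : Ent a) (h0 : a 0 ≠ 0)
    (h : ∀ y : ℂ, ‖y‖ ≤ 1 → Tendsto (fun K : ℕ => ∏ k ∈ range K, (c k + b k * y)) atTop
      (𝓝 (ps a y))) (k : ℕ) : ps a (-(c k) / b k) = 0 := by
  obtain ⟨hc, hu, hT⟩ := extension hb (fun k => (hb0 k).le) ha h0 h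
  set y : ℂ := -(c k) / b k with hy
  have h1 := (hT (‖y‖ + 2) (by linarith [norm_nonneg y])).tendsto_at (a := y) (by
    rw [Metric.mem_ball, dist_zero_right]; linarith)
  have h2 : Tendsto (fun K : ℕ => ∏ j ∈ range K, (1 + (b j : ℂ) / c j * y)) atTop (𝓝 0) := by
    apply tendsto_const_nhds.congr'
    filter_upwards [eventually_gt_atTop k] with K hK
    symm
    apply Finset.prod_eq_zero (Finset.mem_range.2 hK)
    have := hc k
    have h3 : (b k : ℂ) ≠ 0 := by exact_mod_cast (hb0 k).ne'
    rw [hy]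
    field_simp
    ring
  have h3 := tendsto_nhds_unique h1 h2
  simpa [h0] using h3

lemma iter_deriv (ha : Ent a) (p : ℕ → ℝ[X]) {R : ℝ}
    (hT : TendstoLocallyUniformlyOn (fun (K : ℕ) (y : ℂ) => aeval y (p K))
      (fun y => ps a y / a 0) atTop (Metric.ball (0 : ℂ) R)) (A : ℂ) (hA : A = a 0) (j : ℕ) :
    Ent (shift^[j] a) ∧
    TendstoLocallyUniformlyOn (fun (K : ℕ) (y : ℂ) => aeval y (derivative^[j] (p K)))
      (fun y => ps (shift^[j] a) y / A) atTop (Metric.ball (0 : ℂ) R) := by
  induction j with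
  | zero => subst hA; exact ⟨ha, hT⟩
  | succ j ih =>
    obtain ⟨h1, h2⟩ := ih
    have h3 := h2.deriv (by
      filter_upwards with K
      exact (Polynomial.differentiable_aeval _).differentiableOn) Metric.isOpen_ball
    simp only [Function.iterate_succ', Function.comp_apply]
    refine ⟨h1.shift, ?_⟩
    have e1 : (deriv ∘ fun (K : ℕ) (y : ℂ) => aeval y (derivative^[j] (p K))) =
        fun (K : ℕ) (y : ℂ) => aeval y (derivative (derivative^[j] (p K))) := by
      funext K y
      simp only [Function.comp_apply]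
      rw [Polynomial.deriv_aeval]
    have e2 : (deriv fun y => ps (shift^[j] a) y / A) =
        fun y => ps (shift (shift^[j] a)) y / A := by
      funext y
      rw [deriv_div_const, h1.deriv_eq]
    rw [e1, e2] at h3
    exact h3

lemma ext_newton {γ : ℕ → ℝ} {α : ℕ → ℝ} (hb : Summable b) (hb0 : ∀ k, 0 < b k)
    (hcγ : ∀ k, c k = (γ k : ℂ)) (haα : ∀ l, a l = (α l : ℂ)) (ha : Ent a) (h0 : a 0 ≠ 0)
    (h : ∀ y : ℂ, ‖y‖ ≤ 1 → Tendsto (fun K : ℕ => ∏ k ∈ range K, (c k + b k * y)) atTop
      (𝓝 (ps a y))) : 3 * (α 1 * α 3) ≤ 2 * α 2 ^ 2 := by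
  obtain ⟨hc, hu, hT⟩ := extension hb (fun k => (hb0 k).le) ha h0 h
  set p : ℕ → ℝ[X] := fun K => ∏ k ∈ range K, (C 1 + C (b k / γ k) * X) with hp
  have hpT : TendstoLocallyUniformlyOn (fun (K : ℕ) (y : ℂ) => aeval y (p K))
      (fun y => ps a y / a 0) atTop (Metric.ball (0 : ℂ) 2) := by
    have := hT 2 (by norm_num)
    have e : (fun (K : ℕ) (y : ℂ) => aeval y (p K)) =
        (fun (K : ℕ) (y : ℂ) => ∏ k ∈ range K, (1 + (b k : ℂ) / c k * y)) := by
      funext K y
      simp only [hp, map_prod, map_add, map_mul, aeval_C, aeval_X, hcγ]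
      simp
    rw [e]
    exact this
  have hpn : ∀ K, 3 * ((p K).coeff 1 * (p K).coeff 3) ≤ 2 * (p K).coeff 2 ^ 2 := by
    intro K
    apply newton_two
    exact splits_prod_linear (fun _ => 1) (fun k => b k / γ k) K
  have key : ∀ j, Tendsto (fun K => (((derivative^[j] (p K)).coeff 0 : ℝ) : ℂ)) atTop
      (𝓝 ((shift^[j] a) 0 / a 0)) := by
    intro j
    have h1 := (iter_deriv ha p hpT (a 0) rfl j).2.tendsto_at (a := 0)
      (Metric.mem_ball_self (by norm_num))
    rw [ps_zero] at h1
    apply h1.congr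
    intro K
    rw [Polynomial.aeval_def, Polynomial.eval₂_at_zero]
    rfl
  have hα0 : α 0 ≠ 0 := by
    intro h'
    apply h0
    rw [haα, h']; simp
  have k1 : Tendsto (fun K => (p K).coeff 1) atTop (𝓝 (α 1 / α 0)) := by
    have := (Complex.continuous_re.tendsto _).comp (key 1)
    have e1 : ((shift^[1] a) 0 / a 0).re = α 1 / α 0 := by
      simp only [Function.iterate_one, shift, haα]
      rw [← Complex.ofReal_re (α 1 / α 0)]
      congr 1
      push_cast
      ring
    rw [e1] at this
    apply this.congr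
    intro K
    simp [coeff_derivative]
  have k2 : Tendsto (fun K => 2 * (p K).coeff 2) atTop (𝓝 (2 * α 2 / α 0)) := by
    have := (Complex.continuous_re.tendsto _).comp (key 2)
    have e1 : ((shift^[2] a) 0 / a 0).re = 2 * α 2 / α 0 := by
      simp only [Function.iterate_succ, Function.iterate_zero, Function.comp_apply, id, shift, haα]
      rw [← Complex.ofReal_re (2 * α 2 / α 0)]
      congr 1
      push_cast
      ring
    rw [e1] at this
    apply this.congr
    intro K
    simp only [Function.comp_apply, Function.iterate_succ, Function.iterate_zero, id,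
      coeff_derivative, Complex.ofReal_re]
    norm_num
    ring
  have k3 : Tendsto (fun K => 6 * (p K).coeff 3) atTop (𝓝 (6 * α 3 / α 0)) := by
    have := (Complex.continuous_re.tendsto _).comp (key 3)
    have e1 : ((shift^[3] a) 0 / a 0).re = 6 * α 3 / α 0 := by
      simp only [Function.iterate_succ, Function.iterate_zero, Function.comp_apply, id, shift, haα]
      rw [← Complex.ofReal_re (6 * α 3 / α 0)]
      congr 1
      push_cast
      ring
    rw [e1] at this
    apply this.congr
    intro K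
    simp only [Function.comp_apply, Function.iterate_succ, Function.iterate_zero, id,
      coeff_derivative, Complex.ofReal_re]
    norm_num
    ring
  have hlim := le_of_tendsto_of_tendsto (k1.mul k3) ((k2.mul k2)) (by
    filter_upwards with K
    have := hpn K
    nlinarith)
  have h2 : 0 < α 0 ^ 2 := by positivity
  have e3 : α 1 / α 0 * (6 * α 3 / α 0) = 6 * (α 1 * α 3) / α 0 ^ 2 := by field_simp
  have e4 : 2 * α 2 / α 0 * (2 * α 2 / α 0) = 4 * α 2 ^ 2 / α 0 ^ 2 := by field_simp; ring
  rw [e3, e4, div_le_div_iff_of_pos_right h2] at hlim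
  linarith

end fixed

end Pool.Agent.V11331.LA
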